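import Mathlib

set_option autoImplicit false

open MeasureTheory Set Filter Topology Complex
open scoped ENNReal Real ContDiff

namespace Pool.Agent.X206.Bill

/-- the determinant of two plane vectors (written as complex numbers) -/
def cross (a b : ℂ) : ℝ := a.re * b.im - a.im * b.re

/-- a billiard table, given by the arc-length parametrisation of its boundary -/
structure IsTable (γ : ℝ → ℂ) : Prop where
  smooth : ContDiff ℝ ∞ γ
  periodic : Function.Periodic γ 1
  speed : ∀ q, ‖deriv γ q‖ = 1
  curv : ∀ q, 0 < cross (deriv γ q) (deriv (deriv γ) q)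
  inj : InjOn γ (Ico 0 1)
  body : ∃ K : Set ℂ, Convex ℝ K ∧ IsCompact K ∧ (interior K).Nonempty ∧ frontier K = range γ

/-- a smooth homotopy through billiard tables -/
structure IsHomotopy (Γ : ℝ × ℝ → ℂ) (α β : ℝ → ℂ) : Prop where
  smooth : ContDiffOn ℝ ∞ Γ (Icc 0 1 ×ˢ univ)
  table : ∀ s ∈ Icc (0 : ℝ) 1, IsTable (fun q => Γ (s, q))
  left : ∀ q, Γ (0, q) = α q
  right : ∀ q, Γ (1, q) = β q

/-- the geometric distance -/
noncomputable def dB (α β : ℝ → ℂ) : ℝ≥0∞ :=
  ⨅ (Γ : ℝ × ℝ → ℂ) (_ : IsHomotopy Γ α β),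
    ∫⁻ s in Icc (0 : ℝ) 1, ⨆ q : ℝ, ‖deriv (fun r => Γ (r, q)) s‖ₑ

/-- a simple closed curve of length one, parametrised counterclockwise by arc length, that bounds
a convex set -/
structure IsConvexCurve (C : ℝ → ℂ) : Prop where
  cont : Continuous C
  periodic : Function.Periodic C 1
  arc : ∀ s t, s ≤ t → eVariationOn C (Icc s t) = ENNReal.ofReal (t - s)
  inj : InjOn C (Ico 0 1)
  body : ∃ K : Set ℂ, Convex ℝ K ∧ IsCompact K ∧ (interior K).Nonempty ∧ frontier K = range C ∧
    ∀ t v, HasDerivAt C v t → ∀ x ∈ K, 0 ≤ cross v (x - C t)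

/-! ### the class of length functions of the tangent angle -/

structure QF (F : ℝ → ℝ) : Prop where
  smooth : ContDiff ℝ ∞ F
  pos : ∀ y, 0 < deriv F y
  shift : ∀ y, F (y + 2 * π) = F y + 1
  closed : ∫ y in (0:ℝ)..(2 * π), Complex.exp (y * I) * (F y : ℂ) = -I

theorem exp_norm (y : ℝ) : ‖Complex.exp (y * I)‖ = 1 := Complex.norm_exp_ofReal_mul_I y

theorem exp_per (y : ℝ) : Complex.exp (((y + 2 * π : ℝ) : ℂ) * I) = Complex.exp (y * I) := by
  have : ((y + 2 * π : ℝ) : ℂ) * I = y * I + 2 * π * I := by push_cast; ring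
  rw [this, Complex.exp_add, Complex.exp_two_pi_mul_I, mul_one]

theorem exp_hasDeriv (y : ℝ) :
    HasDerivAt (fun x : ℝ => Complex.exp (x * I)) (Complex.exp (y * I) * I) y := by
  have h1 : HasDerivAt (fun x : ℝ => (x : ℂ) * I) I y := by
    simpa using (Complex.ofRealCLM.hasDerivAt (x := y)).mul_const I
  exact h1.cexp

theorem exp_contDiff : ContDiff ℝ ∞ (fun x : ℝ => Complex.exp (x * I)) :=
  (Complex.ofRealCLM.contDiff.mul contDiff_const).cexp

theorem cross_exp (a b : ℝ) : cross (Complex.exp (a * I)) (Complex.exp (b * I)) = Real.sin (b - a) := by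
  unfold cross
  rw [Complex.exp_ofReal_mul_I_re, Complex.exp_ofReal_mul_I_im, Complex.exp_ofReal_mul_I_re,
    Complex.exp_ofReal_mul_I_im, Real.sin_sub]
  ring

theorem cross_add (a b c : ℂ) : cross a (b + c) = cross a b + cross a c := by
  simp [cross]; ring

theorem cross_sub (a b c : ℂ) : cross a (b - c) = cross a b - cross a c := by
  simp [cross]; ring

theorem cross_sub_left (a b c : ℂ) : cross (a - b) c = cross a c - cross b c := by
  simp [cross]; ring

theorem cross_smul (a b : ℂ) (r : ℝ) : cross a ((r : ℂ) * b) = r * cross a b := by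
  simp [cross]; ring

/-- the real linear functional `b ↦ cross a b` -/
noncomputable def crossL (a : ℂ) : ℂ →L[ℝ] ℝ :=
  (a.re • Complex.imCLM) - (a.im • Complex.reCLM)

theorem crossL_apply (a b : ℂ) : crossL a b = cross a b := by
  simp [crossL, cross]

theorem cross_hasDeriv {γ : ℝ → ℂ} {v : ℂ} {t : ℝ} (a c : ℂ) (h : HasDerivAt γ v t) :
    HasDerivAt (fun x => cross a (γ x - c)) (cross a v) t := by
  have := ((crossL a).hasFDerivAt.comp_hasDerivAt t (h.sub_const c))
  simpa [crossL_apply, Function.comp_def] using this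

section single

variable {F : ℝ → ℝ} (hF : QF F)
include hF

theorem QF.diff : Differentiable ℝ F := hF.smooth.differentiable (by simp)

theorem QF.strictMono : StrictMono F := strictMono_of_deriv_pos hF.pos

theorem QF.shift_int (n : ℤ) (y : ℝ) : F (y + n * (2 * π)) = F y + n := by
  induction n using Int.induction_on with
  | zero => simp
  | succ i ih =>
    have := hF.shift (y + i * (2 * π))
    push_cast at *
    rw [show y + (i + 1) * (2 * π) = y + i * (2 * π) + 2 * π by ring, this, ih]; ring
  | pred i ih =>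
    have := hF.shift (y + (-i - 1) * (2 * π))
    push_cast at *
    rw [show y + (-i - 1) * (2 * π) + 2 * π = y + -i * (2 * π) by ring, ih] at this
    linarith

theorem QF.surj : Function.Surjective F := by
  intro t
  obtain ⟨n, hn⟩ := exists_int_gt (t - F 0)
  obtain ⟨m, hm⟩ := exists_int_lt (t - F 0)
  have h1 := hF.shift_int n 0
  have h2 := hF.shift_int m 0
  have hlt : (0 : ℝ) + m * (2 * π) ≤ 0 + n * (2 * π) := by
    have : (m : ℝ) < n := hm.trans hn
    have := Real.pi_pos
    nlinarith
  obtain ⟨x, _, hx⟩ := intermediate_value_Icc hlt hF.diff.continuous.continuousOn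
    (show t ∈ Icc (F (0 + m * (2 * π))) (F (0 + n * (2 * π))) from ⟨by linarith, by linarith⟩)
  exact ⟨x, hx⟩

omit hF in
/-- the tangent angle as a function of arc length -/
noncomputable def Th (F : ℝ → ℝ) (q : ℝ) : ℝ := Function.invFun F q

theorem QF.F_Th (q : ℝ) : F (Th F q) = q := Function.invFun_eq (hF.surj q)

theorem QF.Th_F (y : ℝ) : Th F (F y) = y := Function.leftInverse_invFun hF.strictMono.injective y

theorem QF.Th_strictMono : StrictMono (Th F) := by
  intro a b hab
  by_contra h
  have := hF.strictMono.monotone (not_lt.1 h)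
  rw [hF.F_Th, hF.F_Th] at this
  linarith

theorem QF.Th_shift (q : ℝ) : Th F (q + 1) = Th F q + 2 * π := by
  apply hF.strictMono.injective
  rw [hF.F_Th, hF.shift, hF.F_Th]

/-- the homeomorphism -/
noncomputable def QF.homeo : ℝ ≃ₜ ℝ :=
  (hF.strictMono.orderIsoOfSurjective F hF.surj).toHomeomorph

theorem QF.homeo_symm : (hF.homeo.symm : ℝ → ℝ) = Th F := by
  funext q
  have h1 : hF.homeo (hF.homeo.symm q) = q := hF.homeo.apply_symm_apply q
  have h2 : F (hF.homeo.symm q) = q := h1
  calc hF.homeo.symm q = Th F (F (hF.homeo.symm q)) := (hF.Th_F _).symm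
    _ = Th F q := by rw [h2]

theorem QF.Th_contDiff : ContDiff ℝ ∞ (Th F) := by
  rw [← hF.homeo_symm]
  exact hF.homeo.contDiff_symm_deriv (f' := deriv F) (fun x => (hF.pos x).ne')
    (fun x => (hF.diff x).hasDerivAt) hF.smooth

theorem QF.Th_hasDeriv (q : ℝ) : HasDerivAt (Th F) (deriv F (Th F q))⁻¹ q := by
  have h1 : HasDerivAt (Th F) (deriv (Th F) q) q :=
    (hF.Th_contDiff.differentiable (by simp) q).hasDerivAt
  have h2 := ((hF.diff (Th F q)).hasDerivAt.comp q h1)
  have h3 : F ∘ Th F = id := by
    funext x; exact hF.F_Th x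
  rw [h3] at h2
  have h4 := h2.unique (hasDerivAt_id q)
  have h5 : deriv (Th F) q = (deriv F (Th F q))⁻¹ := by
    rw [eq_inv_of_mul_eq_one_right h4]
  rwa [h5] at h1

omit hF in
/-- the primitive of `e^{iy} F'(y)` -/
noncomputable def G (F : ℝ → ℝ) (y : ℝ) : ℂ :=
  ∫ x in (0:ℝ)..y, Complex.exp (x * I) * ((deriv F x : ℝ) : ℂ)

theorem QF.deriv_contDiff : ContDiff ℝ ∞ (deriv F) :=
  (contDiff_infty_iff_deriv.1 hF.smooth).2

theorem QF.integrand_cont : Continuous (fun x : ℝ => Complex.exp (x * I) * ((deriv F x : ℝ) : ℂ)) :=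
  exp_contDiff.continuous.mul (Complex.continuous_ofReal.comp hF.deriv_contDiff.continuous)

theorem QF.G_hasDeriv (y : ℝ) :
    HasDerivAt (G F) (Complex.exp (y * I) * ((deriv F y : ℝ) : ℂ)) y :=
  hF.integrand_cont.deriv_integral _ 0 y ▸
    (hF.integrand_cont.integral_hasStrictDerivAt 0 y).hasDerivAt.differentiableAt.hasDerivAt

theorem QF.G_contDiff : ContDiff ℝ ∞ (G F) := by
  rw [contDiff_infty_iff_deriv]
  refine ⟨fun y => (hF.G_hasDeriv y).differentiableAt, ?_⟩
  have : deriv (G F) = fun y : ℝ => Complex.exp (y * I) * ((deriv F y : ℝ) : ℂ) := by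
    funext y; exact (hF.G_hasDeriv y).deriv
  rw [this]
  exact exp_contDiff.mul (Complex.ofRealCLM.contDiff.comp hF.deriv_contDiff)

theorem QF.G_eq (y : ℝ) : G F y = Complex.exp (y * I) * (F y : ℂ) - (F 0 : ℂ)
    - I * ∫ x in (0:ℝ)..y, Complex.exp (x * I) * (F x : ℂ) := by
  have h := intervalIntegral.integral_mul_deriv_eq_deriv_mul (a := 0) (b := y)
    (u := fun x : ℝ => Complex.exp (x * I)) (v := fun x : ℝ => (F x : ℂ))
    (u' := fun x : ℝ => Complex.exp (x * I) * I) (v' := fun x : ℝ => ((deriv F x : ℝ) : ℂ))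
    (fun x _ => exp_hasDeriv x)
    (fun x _ => (hF.diff x).hasDerivAt.ofReal_comp)
    ((exp_contDiff.continuous.mul continuous_const).intervalIntegrable _ _)
    ((Complex.continuous_ofReal.comp hF.deriv_contDiff.continuous).intervalIntegrable _ _)
  unfold G
  rw [h]
  have h2 : ∫ x in (0:ℝ)..y, Complex.exp (x * I) * I * (F x : ℂ)
      = I * ∫ x in (0:ℝ)..y, Complex.exp (x * I) * (F x : ℂ) := by
    rw [← intervalIntegral.integral_const_mul]
    congr 1; funext x; ring
  rw [h2]
  simp

theorem QF.G_shift (y : ℝ) : G F (y + 2 * π) = G F y := by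
  have hper : Function.Periodic (fun x : ℝ => Complex.exp (x * I) * ((deriv F x : ℝ) : ℂ)) (2 * π) := by
    intro x
    have h1 : deriv F (x + 2 * π) = deriv F x := by
      have h2 : HasDerivAt (fun z => F (z + 2 * π)) (deriv F (x + 2 * π)) x :=
        HasDerivAt.comp_add_const x (2 * π) (hF.diff (x + 2 * π)).hasDerivAt
      have h3 : HasDerivAt (fun z => F (z + 2 * π)) (deriv F x) x := by
        have : (fun z => F (z + 2 * π)) = fun z => F z + 1 := by funext z; exact hF.shift z
        rw [this]
        exact (hF.diff x).hasDerivAt.add_const 1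
      exact h2.unique h3
    simp only
    rw [exp_per, h1]
  have h0 : G F (2 * π) = 0 := by
    rw [hF.G_eq, hF.closed]
    have h1 : F (2 * π) = F 0 + 1 := by have := hF.shift 0; rwa [zero_add] at this
    have h2 : Complex.exp (((2 * π : ℝ) : ℂ) * I) = 1 := by
      have := exp_per 0
      simp at this ⊢
    rw [h2, h1]
    push_cast
    linear_combination (1 : ℂ) * Complex.I_mul_I
  have h1 : G F (y + 2 * π) - G F y = G F (2 * π) := by
    unfold G
    rw [intervalIntegral.integral_interval_sub_left (hF.integrand_cont.intervalIntegrable _ _)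
      (hF.integrand_cont.intervalIntegrable _ _)]
    have := hper.intervalIntegral_add_eq y 0
    rw [this, zero_add]
  rw [h0] at h1
  exact sub_eq_zero.1 h1

omit hF in
/-- the table with tangent length function `F` starting at `p` -/
noncomputable def Tab (F : ℝ → ℝ) (p : ℂ) (q : ℝ) : ℂ := p + (G F (Th F q) - G F (Th F 0))

omit hF in
theorem Tab_zero (p : ℂ) : Tab F p 0 = p := by simp [Tab]

theorem QF.Tab_hasDeriv (p : ℂ) (q : ℝ) :
    HasDerivAt (Tab F p) (Complex.exp ((Th F q : ℝ) * I)) q := by
  have h1 := (hF.G_hasDeriv (Th F q)).scomp q (hF.Th_hasDeriv q)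
  have h2 : (deriv F (Th F q))⁻¹ • (Complex.exp ((Th F q : ℝ) * I) * ((deriv F (Th F q) : ℝ) : ℂ))
      = Complex.exp ((Th F q : ℝ) * I) := by
    rw [Complex.real_smul]
    have : ((deriv F (Th F q) : ℝ) : ℂ) ≠ 0 := by exact_mod_cast (hF.pos _).ne'
    push_cast
    field_simp
  rw [h2] at h1
  exact (h1.sub_const _).const_add p

theorem QF.Tab_deriv (p : ℂ) : deriv (Tab F p) = fun q => Complex.exp ((Th F q : ℝ) * I) := by
  funext q; exact (hF.Tab_hasDeriv p q).deriv

theorem QF.Tab_contDiff (p : ℂ) : ContDiff ℝ ∞ (Tab F p) :=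
  contDiff_const.add ((hF.G_contDiff.comp hF.Th_contDiff).sub contDiff_const)

theorem QF.Tab_periodic (p : ℂ) : Function.Periodic (Tab F p) 1 := by
  intro q
  unfold Tab
  rw [hF.Th_shift, hF.G_shift]

theorem QF.Tab_deriv2 (p : ℂ) (q : ℝ) : HasDerivAt (deriv (Tab F p))
    (Complex.exp ((Th F q : ℝ) * I) * I * (((deriv F (Th F q))⁻¹ : ℝ) : ℂ)) q := by
  rw [hF.Tab_deriv p]
  have h := (exp_hasDeriv (Th F q)).scomp q (hF.Th_hasDeriv q)
  refine h.congr_deriv ?_
  rw [Complex.real_smul]; ring

/-- the curve lies strictly to the left of its tangents -/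
theorem QF.left (p : ℂ) {t₀ t : ℝ} (h0 : t₀ < t) (h1 : t < t₀ + 1) :
    0 < cross (Complex.exp ((Th F t₀ : ℝ) * I)) (Tab F p t - Tab F p t₀) := by
  set e := Complex.exp ((Th F t₀ : ℝ) * I) with he
  set h : ℝ → ℝ := fun x => cross e (Tab F p x - Tab F p t₀) with hh
  have hd : ∀ x, HasDerivAt h (Real.sin (Th F x - Th F t₀)) x := by
    intro x
    have := cross_hasDeriv e (Tab F p t₀) (hF.Tab_hasDeriv p x)
    rwa [he, cross_exp] at this
  have hc : Continuous h := continuous_iff_continuousAt.2 fun x => (hd x).continuousAt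
  have h00 : h t₀ = 0 := by simp [hh, cross]
  have h01 : h (t₀ + 1) = 0 := by
    simp only [hh]; rw [hF.Tab_periodic p t₀]; simp [cross]
  -- the parameter with opposite tangent
  set m := F (Th F t₀ + π) with hm
  have hm1 : t₀ < m := by
    have := hF.strictMono (show Th F t₀ < Th F t₀ + π by linarith [Real.pi_pos])
    rwa [hF.F_Th] at this
  have hm2 : m < t₀ + 1 := by
    have := hF.strictMono (show Th F t₀ + π < Th F t₀ + 2 * π by linarith [Real.pi_pos])
    rwa [hF.shift, hF.F_Th] at this
  have hThm : Th F m = Th F t₀ + π := hF.Th_F _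
  change 0 < h t
  rcases le_or_gt t m with htm | htm
  · have hmono : StrictMonoOn h (Icc t₀ m) := by
      apply strictMonoOn_of_deriv_pos (convex_Icc _ _) hc.continuousOn
      intro x hx
      rw [interior_Icc] at hx
      rw [(hd x).deriv]
      apply Real.sin_pos_of_pos_of_lt_pi
      · linarith [hF.Th_strictMono hx.1]
      · linarith [hF.Th_strictMono hx.2]
    have := hmono (left_mem_Icc.2 hm1.le) ⟨h0.le, htm⟩ h0
    rwa [h00] at this
  · have hanti : StrictAntiOn h (Icc m (t₀ + 1)) := by
      apply strictAntiOn_of_deriv_neg (convex_Icc _ _) hc.continuousOn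
      intro x hx
      rw [interior_Icc] at hx
      rw [(hd x).deriv]
      have e1 := hF.Th_strictMono hx.1
      have e2 := hF.Th_strictMono hx.2
      rw [hF.Th_shift] at e2
      have : Real.sin (Th F x - Th F t₀) = - Real.sin (Th F x - Th F t₀ - π) := by
        rw [Real.sin_sub_pi]; ring
      rw [this]
      have := Real.sin_pos_of_pos_of_lt_pi (show 0 < Th F x - Th F t₀ - π by linarith)
        (by linarith)
      linarith
    have := hanti ⟨htm.le, h1.le⟩ (right_mem_Icc.2 hm2.le) h1
    rwa [h01] at this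

theorem QF.left' (p : ℂ) (t₀ t : ℝ) (h : Tab F p t ≠ Tab F p t₀) :
    0 < cross (Complex.exp ((Th F t₀ : ℝ) * I)) (Tab F p t - Tab F p t₀) := by
  -- reduce to `t` in `(t₀, t₀+1)`
  have hper := hF.Tab_periodic p
  obtain ⟨y, ⟨hy1, hy2⟩, hy⟩ := hper.exists_mem_Ico (by norm_num : (0:ℝ) < 1) t t₀
  rw [hy]
  rcases hy1.eq_or_lt with h1 | h1
  · exfalso; apply h; rw [hy, ← h1]
  · exact hF.left p h1 hy2

theorem QF.left0 (p : ℂ) (t₀ t : ℝ) :
    0 ≤ cross (Complex.exp ((Th F t₀ : ℝ) * I)) (Tab F p t - Tab F p t₀) := by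
  by_cases h : Tab F p t = Tab F p t₀
  · rw [h]; simp [cross]
  · exact (hF.left' p t₀ t h).le

theorem QF.Tab_inj (p : ℂ) : InjOn (Tab F p) (Ico 0 1) := by
  have key : ∀ x y : ℝ, x ∈ Ico (0:ℝ) 1 → y ∈ Ico (0:ℝ) 1 → x < y → Tab F p x ≠ Tab F p y := by
    intro x y hx hy hxy he
    have := hF.left p hxy (by linarith [hx.1, hy.2])
    rw [← he] at this
    simp [cross] at this
  intro x hx y hy he
  rcases lt_trichotomy x y with h | h | h
  · exact absurd he (key x y hx hy h)
  · exact h
  · exact absurd he.symm (key y x hy hx h)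

theorem QF.isTable (p : ℂ) : IsTable (Tab F p) := by
  have hTc : Continuous (Tab F p) := (hF.Tab_contDiff p).continuous
  have hec : Continuous fun t => Complex.exp ((Th F t : ℝ) * I) :=
    exp_contDiff.continuous.comp hF.Th_contDiff.continuous
  refine ⟨hF.Tab_contDiff p, hF.Tab_periodic p, ?_, ?_, hF.Tab_inj p, ?_⟩
  · intro q; rw [hF.Tab_deriv p]; exact exp_norm _
  · intro q
    rw [(hF.Tab_deriv2 p q).deriv, hF.Tab_deriv p, mul_comm, cross_smul]
    apply mul_pos (inv_pos.2 (hF.pos _))
    simp only [cross, Complex.mul_re, Complex.mul_im, Complex.I_re, Complex.I_im,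
      Complex.exp_ofReal_mul_I_re, Complex.exp_ofReal_mul_I_im]
    have := Real.sin_sq_add_cos_sq (Th F q)
    nlinarith
  · set e : ℝ → ℂ := fun t => Complex.exp ((Th F t : ℝ) * I) with he
    set K : Set ℂ := ⋂ t : ℝ, {x | 0 ≤ cross (e t) (x - Tab F p t)} with hK
    have hKmem : ∀ x, x ∈ K ↔ ∀ t, 0 ≤ cross (e t) (x - Tab F p t) := by
      intro x; simp [hK]
    have hcc : ∀ t, Continuous fun x : ℂ => cross (e t) (x - Tab F p t) := by
      intro t
      have : (fun x : ℂ => cross (e t) (x - Tab F p t)) = fun x => crossL (e t) (x - Tab F p t) := by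
        funext x; rw [crossL_apply]
      rw [this]; fun_prop
    have hKc : IsClosed K := isClosed_iInter fun t => isClosed_le continuous_const (hcc t)
    have hKconv : Convex ℝ K := by
      apply convex_iInter
      intro t x hx y hy a b ha hb hab
      simp only [Set.mem_ofPred_eq] at *
      have : cross (e t) (a • x + b • y - Tab F p t)
          = a * cross (e t) (x - Tab F p t) + b * cross (e t) (y - Tab F p t) := by
        have hb' : b = 1 - a := by linarith
        subst hb'
        simp [cross]; ring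
      rw [this]; positivity
    have hcomp2 : Continuous fun z : ℝ × ℂ => cross (e z.1) (z.2 - Tab F p z.1) := by
      unfold cross
      have h1 : Continuous fun z : ℝ × ℂ => e z.1 := hec.comp continuous_fst
      have h2 : Continuous fun z : ℝ × ℂ => z.2 - Tab F p z.1 :=
        continuous_snd.sub (hTc.comp continuous_fst)
      exact ((Complex.continuous_re.comp h1).mul (Complex.continuous_im.comp h2)).sub
        ((Complex.continuous_im.comp h1).mul (Complex.continuous_re.comp h2))
    -- periodicity of the functional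
    have hper : ∀ x : ℂ, Function.Periodic (fun t => cross (e t) (x - Tab F p t)) 1 := by
      intro x t
      simp only [he]
      rw [hF.Th_shift, exp_per, hF.Tab_periodic p t]
    -- strict positivity implies interior
    have hint : ∀ x, (∀ t, 0 < cross (e t) (x - Tab F p t)) → x ∈ interior K := by
      intro x hx
      rw [mem_interior_iff_mem_nhds]
      have hU : IsOpen {z : ℝ × ℂ | 0 < cross (e z.1) (z.2 - Tab F p z.1)} :=
        isOpen_lt continuous_const hcomp2
      have hsub : (Icc (0:ℝ) 1) ×ˢ {x} ⊆ {z : ℝ × ℂ | 0 < cross (e z.1) (z.2 - Tab F p z.1)} := by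
        rintro ⟨t, y⟩ ⟨_, hy⟩
        simp only [mem_singleton_iff] at hy
        subst hy
        exact hx t
      obtain ⟨u, v, hu, hv, hIu, hxv, huv⟩ :=
        generalized_tube_lemma isCompact_Icc isCompact_singleton hU hsub
      refine mem_of_superset (hv.mem_nhds (hxv rfl)) ?_
      intro y hy
      rw [hKmem]
      intro t
      obtain ⟨t', ht', hte⟩ := (hper y).exists_mem_Ico (by norm_num : (0:ℝ) < 1) t 0
      have hz : ((t', y) : ℝ × ℂ) ∈ u ×ˢ v := ⟨hIu ⟨ht'.1, by linarith [ht'.2]⟩, hy⟩
      have hlt : 0 < cross (e t') (y - Tab F p t') := huv hz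
      have hte' : cross (e t) (y - Tab F p t) = cross (e t') (y - Tab F p t') := hte
      rw [hte']
      exact hlt.le
    have hrange : range (Tab F p) ⊆ K := by
      rintro _ ⟨t, rfl⟩
      rw [hKmem]
      intro t₀
      exact hF.left0 p t₀ t
    refine ⟨K, hKconv, ?_, ?_, ?_⟩
    · -- compactness
      refine Metric.isCompact_of_isClosed_isBounded hKc ?_
      obtain ⟨R, hR⟩ := (isCompact_Icc (a := (0:ℝ)) (b := 1)).exists_bound_of_continuousOn
        hTc.continuousOn
      have hR' : ∀ t, ‖Tab F p t‖ ≤ R := by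
        intro t
        obtain ⟨t', ht', hte⟩ := (hF.Tab_periodic p).exists_mem_Ico (by norm_num : (0:ℝ) < 1) t 0
        rw [hte]
        exact hR t' ⟨ht'.1, by linarith [ht'.2]⟩
      refine (isBounded_iff_forall_norm_le).2 ⟨R, ?_⟩
      intro x hx
      rw [hKmem] at hx
      by_cases hx0 : x = 0
      · rw [hx0, norm_zero]; exact (norm_nonneg _).trans (hR' 0)
      -- the tangent direction `i x / |x|`
      set φ := Complex.arg x + π / 2 with hφ
      have h1 := hx (F φ)
      have h2 : e (F φ) = Complex.exp ((φ : ℝ) * I) := by simp only [he]; rw [hF.Th_F]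
      rw [cross_sub, h2] at h1
      have h3 : cross (Complex.exp ((φ : ℝ) * I)) x = -‖x‖ := by
        have hxx : x = (‖x‖ : ℂ) * Complex.exp ((Complex.arg x : ℝ) * I) :=
          (Complex.norm_mul_exp_arg_mul_I x).symm
        conv_lhs => rw [hxx]
        rw [cross_smul, cross_exp, hφ]
        rw [show Complex.arg x - (Complex.arg x + π / 2) = -(π / 2) by ring, Real.sin_neg,
          Real.sin_pi_div_two]
        ring
      have h4 : |cross (Complex.exp ((φ : ℝ) * I)) (Tab F p (F φ))| ≤ R := by
        set w := Tab F p (F φ) with hw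
        have hww : w = (‖w‖ : ℂ) * Complex.exp ((Complex.arg w : ℝ) * I) :=
          (Complex.norm_mul_exp_arg_mul_I w).symm
        have : cross (Complex.exp ((φ : ℝ) * I)) w = ‖w‖ * Real.sin (Complex.arg w - φ) := by
          conv_lhs => rw [hww]
          rw [cross_smul, cross_exp]
        rw [this, abs_mul, abs_of_nonneg (norm_nonneg _)]
        calc ‖w‖ * |Real.sin (Complex.arg w - φ)| ≤ ‖w‖ * 1 :=
              mul_le_mul_of_nonneg_left (Real.abs_sin_le_one _) (norm_nonneg _)
          _ ≤ R := by rw [mul_one]; exact hR' _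
      have := (abs_le.1 h4).1
      linarith
    · -- interior
      refine ⟨(1/2 : ℝ) * (Tab F p 0 + Tab F p (1/2)), hint _ ?_⟩
      intro t
      have hne : Tab F p 0 ≠ Tab F p (1/2) := by
        intro h
        have := hF.Tab_inj p ⟨le_refl _, by norm_num⟩ ⟨by norm_num, by norm_num⟩ h
        norm_num at this
      have hsum : cross (e t) ((1/2 : ℝ) * (Tab F p 0 + Tab F p (1/2)) - Tab F p t)
          = (1/2) * (cross (e t) (Tab F p 0 - Tab F p t) + cross (e t) (Tab F p (1/2) - Tab F p t)) := by
        simp [cross]; ring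
      rw [hsum]
      have a0 := hF.left0 p t 0
      have a1 := hF.left0 p t (1/2)
      by_cases h0 : Tab F p 0 = Tab F p t
      · have h1 : Tab F p (1/2) ≠ Tab F p t := fun h => hne (h0.trans h.symm)
        have := hF.left' p t (1/2) h1
        simp only [he] at *
        linarith
      · have := hF.left' p t 0 h0
        simp only [he] at *
        linarith
    · -- the frontier
      apply Subset.antisymm
      · intro x hx
        rw [hKc.frontier_eq] at hx
        have hxK := (hKmem x).1 hx.1
        have hex : ∃ t, cross (e t) (x - Tab F p t) = 0 := by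
          by_contra hcon
          push Not at hcon
          exact hx.2 (hint x fun t => lt_of_le_of_ne (hxK t) (Ne.symm (hcon t)))
        obtain ⟨t, ht⟩ := hex
        refine ⟨t, ?_⟩
        -- derivative at the minimum
        have hd : HasDerivAt (fun t => cross (e t) (x - Tab F p t))
            (-( (deriv F (Th F t))⁻¹ * ((e t).re * (x - Tab F p t).re + (e t).im * (x - Tab F p t).im))) t := by
          have h1 := hF.Tab_deriv2 p t
          rw [hF.Tab_deriv p] at h1
          have h2 := hF.Tab_hasDeriv p t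
          have r1 := Complex.reCLM.hasFDerivAt.comp_hasDerivAt t h1
          have i1 := Complex.imCLM.hasFDerivAt.comp_hasDerivAt t h1
          have r2 := Complex.reCLM.hasFDerivAt.comp_hasDerivAt t (h2.const_sub x)
          have i2 := Complex.imCLM.hasFDerivAt.comp_hasDerivAt t (h2.const_sub x)
          have := (r1.mul i2).sub (i1.mul r2)
          refine (this.congr_deriv ?_)
          simp [he]
          ring
        have hmin : IsLocalMin (fun t => cross (e t) (x - Tab F p t)) t := by
          apply Filter.Eventually.of_forall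
          intro s
          simp only [ht]
          exact hxK s
        have h0 := hmin.hasDerivAt_eq_zero hd
        have hinv : (deriv F (Th F t))⁻¹ ≠ 0 := (inv_pos.2 (hF.pos _)).ne'
        have h1 : (e t).re * (x - Tab F p t).re + (e t).im * (x - Tab F p t).im = 0 := by
          have := neg_eq_zero.1 h0
          exact (mul_eq_zero.1 this).resolve_left hinv
        have hn : (e t).re ^ 2 + (e t).im ^ 2 = 1 := by
          simp only [he, Complex.exp_ofReal_mul_I_re, Complex.exp_ofReal_mul_I_im]
          have := Real.sin_sq_add_cos_sq (Th F t)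
          linarith
        unfold cross at ht
        set w := x - Tab F p t with hw
        have hre : w.re = 0 := by
          have : w.re * ((e t).re ^ 2 + (e t).im ^ 2) = 0 := by
            linear_combination (e t).re * h1 - (e t).im * ht
          rwa [hn, mul_one] at this
        have him : w.im = 0 := by
          have : w.im * ((e t).re ^ 2 + (e t).im ^ 2) = 0 := by
            linear_combination (e t).im * h1 + (e t).re * ht
          rwa [hn, mul_one] at this
        have : w = 0 := Complex.ext hre him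
        exact (sub_eq_zero.1 this).symm
      · rintro _ ⟨t, rfl⟩
        rw [hKc.frontier_eq]
        refine ⟨hrange ⟨t, rfl⟩, ?_⟩
        intro hmem
        rw [mem_interior_iff_mem_nhds, Metric.mem_nhds_iff] at hmem
        obtain ⟨ε, hε, hball⟩ := hmem
        have hin : Tab F p t - ((ε / 2 : ℝ) : ℂ) * (I * e t) ∈ Metric.ball (Tab F p t) ε := by
          rw [Metric.mem_ball, dist_eq_norm]
          have : ‖Tab F p t - ((ε / 2 : ℝ) : ℂ) * (I * e t) - Tab F p t‖ = ε / 2 := by
            rw [sub_sub_cancel_left, norm_neg, norm_mul, norm_mul, Complex.norm_I, exp_norm,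
              Complex.norm_real, Real.norm_of_nonneg (by linarith)]
            ring
          rw [this]; linarith
        have h1 := (hKmem _).1 (hball hin) t
        have h2 : cross (e t) (Tab F p t - ((ε / 2 : ℝ) : ℂ) * (I * e t) - Tab F p t) = -(ε / 2) := by
          have : Tab F p t - ((ε / 2 : ℝ) : ℂ) * (I * e t) - Tab F p t
            = ((-(ε / 2) : ℝ) : ℂ) * (I * e t) := by push_cast; ring
          rw [this, cross_smul]
          have hn : cross (e t) (I * e t) = 1 := by
            simp only [he, cross, Complex.mul_re, Complex.mul_im, Complex.I_re, Complex.I_im,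
              Complex.exp_ofReal_mul_I_re, Complex.exp_ofReal_mul_I_im]
            have := Real.sin_sq_add_cos_sq (Th F t)
            linarith
          rw [hn]; ring
        rw [h2] at h1
        linarith

end single

/-! ### homotopies -/

/-- convex combination of two length functions -/
noncomputable def mix (F₀ F₁ : ℝ → ℝ) (w : ℝ) (y : ℝ) : ℝ := (1 - w) * F₀ y + w * F₁ y

section homotopy

variable {F₀ F₁ : ℝ → ℝ} (h0 : QF F₀) (h1 : QF F₁)
include h0 h1

theorem mix_hasDeriv (w y : ℝ) :
    HasDerivAt (mix F₀ F₁ w) ((1 - w) * deriv F₀ y + w * deriv F₁ y) y :=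
  ((h0.diff y).hasDerivAt.const_mul _).add ((h1.diff y).hasDerivAt.const_mul _)

theorem mix_QF {w : ℝ} (hw0 : 0 ≤ w) (hw1 : w ≤ 1) : QF (mix F₀ F₁ w) := by
  refine ⟨(contDiff_const.mul h0.smooth).add (contDiff_const.mul h1.smooth), ?_, ?_, ?_⟩
  · intro y
    rw [(mix_hasDeriv h0 h1 w y).deriv]
    have a := h0.pos y
    have b := h1.pos y
    rcases hw0.eq_or_lt with h | h
    · rw [← h]; simpa using a
    · have := mul_nonneg (sub_nonneg.2 hw1) a.le
      have := mul_pos h b
      linarith
  · intro y
    unfold mix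
    rw [h0.shift, h1.shift]; ring
  · have i0 : IntervalIntegrable (fun y : ℝ => Complex.exp (y * I) * (F₀ y : ℂ)) volume 0 (2 * π) :=
      (exp_contDiff.continuous.mul
        (Complex.continuous_ofReal.comp h0.smooth.continuous)).intervalIntegrable _ _
    have i1 : IntervalIntegrable (fun y : ℝ => Complex.exp (y * I) * (F₁ y : ℂ)) volume 0 (2 * π) :=
      (exp_contDiff.continuous.mul
        (Complex.continuous_ofReal.comp h1.smooth.continuous)).intervalIntegrable _ _
    have : (fun y : ℝ => Complex.exp (y * I) * ((mix F₀ F₁ w y : ℝ) : ℂ))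
        = fun y : ℝ => (1 - w : ℂ) * (Complex.exp (y * I) * (F₀ y : ℂ))
          + (w : ℂ) * (Complex.exp (y * I) * (F₁ y : ℂ)) := by
      funext y; unfold mix; push_cast; ring
    rw [this, intervalIntegral.integral_add (i0.const_mul _) (i1.const_mul _),
      intervalIntegral.integral_const_mul, intervalIntegral.integral_const_mul, h0.closed, h1.closed]
    ring

theorem G_mix (w y : ℝ) :
    G (mix F₀ F₁ w) y = (1 - w : ℂ) * G F₀ y + (w : ℂ) * G F₁ y := by
  unfold G
  rw [← intervalIntegral.integral_const_mul, ← intervalIntegral.integral_const_mul,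
    ← intervalIntegral.integral_add]
  · congr 1
    funext x
    rw [(mix_hasDeriv h0 h1 w x).deriv]
    push_cast; ring
  · exact (h0.integrand_cont.intervalIntegrable _ _).const_mul _
  · exact (h1.integrand_cont.intervalIntegrable _ _).const_mul _

theorem st_QF (s : ℝ) : QF (mix F₀ F₁ (Real.smoothTransition s)) :=
  mix_QF h0 h1 (Real.smoothTransition.nonneg s) (Real.smoothTransition.le_one s)

theorem Th_cont2 : Continuous fun z : ℝ × ℝ =>
    Th (mix F₀ F₁ (Real.smoothTransition z.1)) z.2 := by
  rw [continuous_iff_continuousAt]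
  intro z₀
  have hc : ∀ a : ℝ, Continuous fun z : ℝ × ℝ =>
      mix F₀ F₁ (Real.smoothTransition z.1) a := by
    intro a
    unfold mix
    have := Real.smoothTransition.continuous.comp (continuous_fst (X := ℝ) (Y := ℝ))
    exact ((continuous_const.sub this).mul continuous_const).add (this.mul continuous_const)
  refine tendsto_order.2 ⟨?_, ?_⟩
  · intro a ha
    have hlt : mix F₀ F₁ (Real.smoothTransition z₀.1) a < z₀.2 := by
      have := (st_QF h0 h1 z₀.1).strictMono ha
      rwa [(st_QF h0 h1 z₀.1).F_Th] at this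
    filter_upwards [(isOpen_lt (hc a) continuous_snd).mem_nhds hlt] with z hz
    have hz' : mix F₀ F₁ (Real.smoothTransition z.1) a < z.2 := hz
    have := (st_QF h0 h1 z.1).Th_strictMono hz'
    rwa [(st_QF h0 h1 z.1).Th_F] at this
  · intro a ha
    have hlt : z₀.2 < mix F₀ F₁ (Real.smoothTransition z₀.1) a := by
      have := (st_QF h0 h1 z₀.1).strictMono ha
      rwa [(st_QF h0 h1 z₀.1).F_Th] at this
    filter_upwards [(isOpen_lt continuous_snd (hc a)).mem_nhds hlt] with z hz
    have hz' : z.2 < mix F₀ F₁ (Real.smoothTransition z.1) a := hz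
    have := (st_QF h0 h1 z.1).Th_strictMono hz'
    rwa [(st_QF h0 h1 z.1).Th_F] at this

theorem H_contDiff : ContDiff ℝ ∞ fun z : ℝ × ℝ => mix F₀ F₁ (Real.smoothTransition z.1) z.2 := by
  unfold mix
  have h2 : ContDiff ℝ ∞ fun z : ℝ × ℝ => Real.smoothTransition z.1 :=
    Real.smoothTransition.contDiff.comp contDiff_fst
  exact ((contDiff_const.sub h2).mul (h0.smooth.comp contDiff_snd)).add
    (h2.mul (h1.smooth.comp contDiff_snd))

/-- the homeomorphism `(s,y) ↦ (s, F_s(y))` -/
noncomputable def Phi : (ℝ × ℝ) ≃ₜ (ℝ × ℝ) where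
  toFun z := (z.1, mix F₀ F₁ (Real.smoothTransition z.1) z.2)
  invFun z := (z.1, Th (mix F₀ F₁ (Real.smoothTransition z.1)) z.2)
  left_inv z := by
    ext
    · rfl
    · exact (st_QF h0 h1 z.1).Th_F z.2
  right_inv z := by
    ext
    · rfl
    · exact (st_QF h0 h1 z.1).F_Th z.2
  continuous_toFun := continuous_fst.prodMk (H_contDiff h0 h1).continuous
  continuous_invFun := continuous_fst.prodMk (Th_cont2 h0 h1)

theorem Th_contDiff2 : ContDiff ℝ ∞ fun z : ℝ × ℝ =>
    Th (mix F₀ F₁ (Real.smoothTransition z.1)) z.2 := by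
  have hH := H_contDiff h0 h1
  set H : ℝ × ℝ → ℝ := fun z => mix F₀ F₁ (Real.smoothTransition z.1) z.2 with hHdef
  have hdiff : Differentiable ℝ H := hH.differentiable (by simp)
  have hB : ∀ z : ℝ × ℝ, fderiv ℝ H z (0, 1) ≠ 0 := by
    intro z
    have h2 : HasDerivAt (fun y => H (z.1, y)) (fderiv ℝ H z (0, 1)) z.2 := by
      have e1 : HasDerivAt (fun y : ℝ => ((z.1, y) : ℝ × ℝ)) ((0, 1) : ℝ × ℝ) z.2 :=
        (hasDerivAt_const z.2 z.1).prodMk (hasDerivAt_id z.2)
      exact (hdiff (z.1, z.2)).hasFDerivAt.comp_hasDerivAt z.2 e1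
    have h3 := (st_QF h0 h1 z.1).pos z.2
    have h4 : deriv (mix F₀ F₁ (Real.smoothTransition z.1)) z.2 = fderiv ℝ H z (0, 1) := h2.deriv
    rw [h4] at h3
    exact h3.ne'
  have hsplit : ∀ (z v : ℝ × ℝ), fderiv ℝ H z v = v.1 * fderiv ℝ H z (1, 0) + v.2 * fderiv ℝ H z (0, 1) := by
    intro z v
    have : v = v.1 • ((1, 0) : ℝ × ℝ) + v.2 • ((0, 1) : ℝ × ℝ) := by
      ext <;> simp
    conv_lhs => rw [this]
    rw [map_add, map_smul, map_smul]
    simp
  let E : ℝ × ℝ → (ℝ × ℝ) ≃L[ℝ] (ℝ × ℝ) := fun z =>
    ContinuousLinearEquiv.equivOfInverse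
      ((ContinuousLinearMap.fst ℝ ℝ ℝ).prod (fderiv ℝ H z))
      ((ContinuousLinearMap.fst ℝ ℝ ℝ).prod ((fderiv ℝ H z (0, 1))⁻¹ •
        (ContinuousLinearMap.snd ℝ ℝ ℝ - (fderiv ℝ H z (1, 0)) • ContinuousLinearMap.fst ℝ ℝ ℝ)))
      (by
        intro v
        have := hB z
        ext
        · simp
        · simp only [ContinuousLinearMap.prod_apply, ContinuousLinearMap.coe_fst',
            _root_.smul_apply, _root_.sub_apply,
            ContinuousLinearMap.coe_snd', smul_eq_mul, hsplit z v]
          field_simp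
          ring)
      (by
        intro v
        have := hB z
        ext
        · simp
        · simp only [ContinuousLinearMap.prod_apply, ContinuousLinearMap.coe_fst',
            _root_.smul_apply, _root_.sub_apply,
            ContinuousLinearMap.coe_snd', smul_eq_mul]
          rw [hsplit z]
          field_simp
          ring)
  have hE : ∀ z, HasFDerivAt (Phi h0 h1) (E z : (ℝ × ℝ) →L[ℝ] (ℝ × ℝ)) z := by
    intro z
    exact hasFDerivAt_fst.prodMk (hdiff z).hasFDerivAt
  have hPhi : ContDiff ℝ ∞ (Phi h0 h1) := contDiff_fst.prodMk hH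
  exact contDiff_snd.comp ((Phi h0 h1).contDiff_symm hE hPhi)

/-- the difference function of the two tables -/
theorem D_diff (a b : ℝ) :
    ‖((G F₁ a - G F₀ a) - Complex.exp (a * I) * ((F₁ a - F₀ a : ℝ) : ℂ))
      - ((G F₁ b - G F₀ b) - Complex.exp (b * I) * ((F₁ b - F₀ b : ℝ) : ℂ))‖
      ≤ ∫ x in (0:ℝ)..(2 * π), |F₁ x - F₀ x| := by
  set D : ℝ → ℂ := fun a => (G F₁ a - G F₀ a) - Complex.exp (a * I) * ((F₁ a - F₀ a : ℝ) : ℂ) with hD
  have hper : Function.Periodic D (2 * π) := by
    intro y
    simp only [hD]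
    rw [h0.G_shift, h1.G_shift, h0.shift, h1.shift, exp_per]
    congr 3
    ring
  obtain ⟨a', ha', hae⟩ := hper.exists_mem_Ico (by positivity) a b
  change ‖D a - D b‖ ≤ _
  rw [hae]
  have i0 : Continuous (fun y : ℝ => Complex.exp (y * I) * (F₀ y : ℂ)) :=
    (exp_contDiff.continuous.mul (Complex.continuous_ofReal.comp h0.smooth.continuous))
  have i1 : Continuous (fun y : ℝ => Complex.exp (y * I) * (F₁ y : ℂ)) :=
    (exp_contDiff.continuous.mul (Complex.continuous_ofReal.comp h1.smooth.continuous))
  have hform : ∀ y, D y = -((F₁ 0 - F₀ 0 : ℝ) : ℂ) - I * ((∫ x in (0:ℝ)..y, Complex.exp (x * I) * (F₁ x : ℂ))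
      - ∫ x in (0:ℝ)..y, Complex.exp (x * I) * (F₀ x : ℂ)) := by
    intro y
    simp only [hD]
    rw [h0.G_eq, h1.G_eq]
    push_cast
    ring
  have hdiff : D a' - D b = - I * ∫ x in b..a', Complex.exp (x * I) * ((F₁ x - F₀ x : ℝ) : ℂ) := by
    rw [hform a', hform b]
    have e1 := intervalIntegral.integral_interval_sub_left (i1.intervalIntegrable 0 a')
      (i1.intervalIntegrable (μ := volume) 0 b)
    have e0 := intervalIntegral.integral_interval_sub_left (i0.intervalIntegrable 0 a')
      (i0.intervalIntegrable (μ := volume) 0 b)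
    have e2 : ∫ x in b..a', Complex.exp (x * I) * ((F₁ x - F₀ x : ℝ) : ℂ)
        = (∫ x in b..a', Complex.exp (x * I) * (F₁ x : ℂ))
          - ∫ x in b..a', Complex.exp (x * I) * (F₀ x : ℂ) := by
      rw [← intervalIntegral.integral_sub (i1.intervalIntegrable _ _) (i0.intervalIntegrable _ _)]
      congr 1; funext x; push_cast; ring
    rw [e2, ← e1, ← e0]
    ring
  rw [hdiff, norm_mul, norm_neg, Complex.norm_I, one_mul]
  have hcabs : Continuous fun x => |F₁ x - F₀ x| :=
    (h1.smooth.continuous.sub h0.smooth.continuous).abs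
  calc ‖∫ x in b..a', Complex.exp (x * I) * ((F₁ x - F₀ x : ℝ) : ℂ)‖
      ≤ ∫ x in b..a', |F₁ x - F₀ x| := by
        refine intervalIntegral.norm_integral_le_of_norm_le ha'.1 ?_ (hcabs.intervalIntegrable _ _)
        filter_upwards with x _
        rw [norm_mul, exp_norm, one_mul, Complex.norm_real, Real.norm_eq_abs]
    _ ≤ ∫ x in b..(b + 2 * π), |F₁ x - F₀ x| := by
        apply intervalIntegral.integral_mono_interval le_rfl ha'.1 ha'.2.le
        · filter_upwards with x; exact abs_nonneg _
        · exact hcabs.intervalIntegrable _ _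
    _ = ∫ x in (0:ℝ)..(2 * π), |F₁ x - F₀ x| := by
        have hp : Function.Periodic (fun x => |F₁ x - F₀ x|) (2 * π) := by
          intro x
          simp only
          rw [h0.shift, h1.shift]
          congr 1; ring
        have := hp.intervalIntegral_add_eq b 0
        rw [this, zero_add]

/-- the homotopy -/
theorem homotopy_exists (p : ℂ) {M : ℝ}
    (hM : ∀ s ∈ Icc (0:ℝ) 1, |deriv Real.smoothTransition s| ≤ M) :
    dB (Tab F₀ p) (Tab F₁ p) ≤ ENNReal.ofReal (M * ∫ x in (0:ℝ)..(2 * π), |F₁ x - F₀ x|) := by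
  set J := ∫ x in (0:ℝ)..(2 * π), |F₁ x - F₀ x| with hJ
  have hJ0 : 0 ≤ J := intervalIntegral.integral_nonneg (by positivity) fun x _ => abs_nonneg _
  set Γ : ℝ × ℝ → ℂ := fun z => Tab (mix F₀ F₁ (Real.smoothTransition z.1)) p z.2 with hΓ
  have hΓeq : ∀ z : ℝ × ℝ, Γ z = p + ((((1 - Real.smoothTransition z.1 : ℝ) : ℂ)
        * G F₀ (Th (mix F₀ F₁ (Real.smoothTransition z.1)) z.2)
      + ((Real.smoothTransition z.1 : ℝ) : ℂ)
        * G F₁ (Th (mix F₀ F₁ (Real.smoothTransition z.1)) z.2))
      - (((1 - Real.smoothTransition z.1 : ℝ) : ℂ)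
        * G F₀ (Th (mix F₀ F₁ (Real.smoothTransition z.1)) 0)
      + ((Real.smoothTransition z.1 : ℝ) : ℂ)
        * G F₁ (Th (mix F₀ F₁ (Real.smoothTransition z.1)) 0))) := by
    intro z
    simp only [hΓ, Tab]
    rw [G_mix h0 h1, G_mix h0 h1]
    push_cast
    ring
  have hχ : ContDiff ℝ ∞ fun z : ℝ × ℝ => ((Real.smoothTransition z.1 : ℝ) : ℂ) :=
    Complex.ofRealCLM.contDiff.comp (Real.smoothTransition.contDiff.comp contDiff_fst)
  have hχ' : ContDiff ℝ ∞ fun z : ℝ × ℝ => ((1 - Real.smoothTransition z.1 : ℝ) : ℂ) :=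
    Complex.ofRealCLM.contDiff.comp
      (contDiff_const.sub (Real.smoothTransition.contDiff.comp contDiff_fst))
  have hT := Th_contDiff2 h0 h1
  have hT0 : ContDiff ℝ ∞ fun z : ℝ × ℝ => Th (mix F₀ F₁ (Real.smoothTransition z.1)) 0 := by
    have : ContDiff ℝ ∞ fun z : ℝ × ℝ => ((z.1, (0:ℝ)) : ℝ × ℝ) :=
      contDiff_fst.prodMk contDiff_const
    exact hT.comp this
  have hsm : ContDiff ℝ ∞ Γ := by
    have : Γ = _ := funext hΓeq
    rw [this]
    exact contDiff_const.add (((hχ'.mul (h0.G_contDiff.comp hT)).add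
      (hχ.mul (h1.G_contDiff.comp hT))).sub ((hχ'.mul (h0.G_contDiff.comp hT0)).add
      (hχ.mul (h1.G_contDiff.comp hT0))))
  have hhom : IsHomotopy Γ (Tab F₀ p) (Tab F₁ p) := by
    refine ⟨hsm.contDiffOn, ?_, ?_, ?_⟩
    · intro s _
      exact (st_QF h0 h1 s).isTable p
    · intro q
      have : mix F₀ F₁ (Real.smoothTransition 0) = F₀ := by
        funext y; unfold mix; rw [Real.smoothTransition.zero]; ring
      simp only [hΓ, this]
    · intro q
      have : mix F₀ F₁ (Real.smoothTransition 1) = F₁ := by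
        funext y; unfold mix; rw [Real.smoothTransition.one]; ring
      simp only [hΓ, this]
  refine (iInf₂_le Γ hhom).trans ?_
  -- the derivative in `s`
  have hder : ∀ s ∈ Icc (0:ℝ) 1, ∀ q, ‖deriv (fun r => Γ (r, q)) s‖ₑ ≤ ENNReal.ofReal (M * J) := by
    intro s hs q
    -- the derivative of one term
    have hterm : ∀ q : ℝ, HasDerivAt (fun r : ℝ => ((1 - Real.smoothTransition r : ℝ) : ℂ)
        * G F₀ (Th (mix F₀ F₁ (Real.smoothTransition r)) q)
        + ((Real.smoothTransition r : ℝ) : ℂ) * G F₁ (Th (mix F₀ F₁ (Real.smoothTransition r)) q))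
        (((deriv Real.smoothTransition s : ℝ) : ℂ) *
          ((G F₁ (Th (mix F₀ F₁ (Real.smoothTransition s)) q)
            - G F₀ (Th (mix F₀ F₁ (Real.smoothTransition s)) q))
           - Complex.exp (((Th (mix F₀ F₁ (Real.smoothTransition s)) q : ℝ) : ℂ) * I)
            * ((F₁ (Th (mix F₀ F₁ (Real.smoothTransition s)) q)
            - F₀ (Th (mix F₀ F₁ (Real.smoothTransition s)) q) : ℝ) : ℂ))) s := by
      intro q
      set a : ℝ → ℝ := fun r => Th (mix F₀ F₁ (Real.smoothTransition r)) q with ha
      have had : HasDerivAt a (deriv a s) s := by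
        have : ContDiff ℝ ∞ a := hT.comp (contDiff_id.prodMk contDiff_const)
        exact (this.differentiable (by simp) s).hasDerivAt
      have hst : HasDerivAt Real.smoothTransition (deriv Real.smoothTransition s) s :=
        ((Real.smoothTransition.contDiff (n := 1)).differentiable (by simp) s).hasDerivAt
      -- implicit relation
      have hrel : (fun r => (1 - Real.smoothTransition r) * F₀ (a r)
          + Real.smoothTransition r * F₁ (a r)) = fun _ => q := by
        funext r
        exact (st_QF h0 h1 r).F_Th q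
      have hd1 := ((hst.const_sub 1).mul ((h0.diff (a s)).hasDerivAt.comp s had)).add
        (hst.mul ((h1.diff (a s)).hasDerivAt.comp s had))
      have hd2 : HasDerivAt (fun r => (1 - Real.smoothTransition r) * F₀ (a r)
          + Real.smoothTransition r * F₁ (a r)) 0 s := by
        rw [hrel]; exact hasDerivAt_const s q
      have hzero := hd1.unique hd2
      simp only [Function.comp] at hzero
      have c0 := ((hst.const_sub 1).ofReal_comp).mul ((h0.G_hasDeriv (a s)).scomp s had)
      have c1 := (hst.ofReal_comp).mul ((h1.G_hasDeriv (a s)).scomp s had)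
      refine ((c0.add c1).congr_deriv ?_)
      simp only [Function.comp, Complex.real_smul]
      have hz : ((-(deriv Real.smoothTransition s) * F₀ (a s)
        + (1 - Real.smoothTransition s) * (deriv F₀ (a s) * deriv a s)
        + (deriv Real.smoothTransition s * F₁ (a s)
        + Real.smoothTransition s * (deriv F₁ (a s) * deriv a s)) : ℝ) : ℂ) = 0 := by
        rw [hzero]; simp
      push_cast at hz ⊢
      linear_combination Complex.exp ((a s : ℂ) * I) * hz
    have h2 := ((hterm q).sub (hterm 0)).const_add p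
    have hfull := h2.congr_of_eventuallyEq (f₁ := fun r => Γ (r, q))
      (Filter.Eventually.of_forall fun r => hΓeq (r, q))
    rw [hfull.deriv, ← mul_sub]
    rw [← ofReal_norm]
    apply ENNReal.ofReal_le_ofReal
    rw [norm_mul, Complex.norm_real, Real.norm_eq_abs]
    exact mul_le_mul (hM s hs) (D_diff h0 h1 _ _) (norm_nonneg _)
      ((abs_nonneg _).trans (hM s hs))
  calc ∫⁻ s in Icc (0 : ℝ) 1, ⨆ q : ℝ, ‖deriv (fun r => Γ (r, q)) s‖ₑ
      ≤ ∫⁻ s in Icc (0 : ℝ) 1, ENNReal.ofReal (M * J) := by
        apply setLIntegral_mono measurable_const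
        intro s hs
        exact iSup_le fun q => hder s hs q
    _ = ENNReal.ofReal (M * J) := by
        rw [setLIntegral_const]; simp

end homotopy

/-! ### the structure of the given curve -/

theorem ll_const {Z : ℝ → ℂ} (hZ : LocallyLipschitz Z) (h0 : ∀ᵐ x : ℝ, HasDerivAt Z 0 x) (t : ℝ) :
    Z t = Z 0 := by
  obtain ⟨K, hK⟩ := (hZ.locallyLipschitzOn (s := uIcc 0 t)).exists_lipschitzOnWith_of_compact
    isCompact_uIcc
  obtain ⟨c, hc⟩ := hK.absolutelyContinuousOnInterval.const_of_ae_hasDerivAt_zero
    (by filter_upwards [h0] with x hx _ using hx)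
  rw [hc t right_mem_uIcc, hc 0 left_mem_uIcc]

theorem bdd_int {g : ℝ → ℂ} {K : ℝ} (hm : Measurable g) (hb : ∀ x, ‖g x‖ ≤ K) (a b : ℝ) :
    IntervalIntegrable g volume a b := by
  have : IntervalIntegrable (fun _ : ℝ => K) volume a b := intervalIntegrable_const
  exact this.mono_fun hm.aestronglyMeasurable
    (Filter.Eventually.of_forall fun x => (hb x).trans (le_abs_self K))

theorem bdd_locInt {g : ℝ → ℂ} {K : ℝ} (hm : Measurable g) (hb : ∀ x, ‖g x‖ ≤ K) :
    LocallyIntegrable g volume := by
  have : LocallyIntegrable (fun _ : ℝ => K) volume := locallyIntegrable_const K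
  exact this.mono hm.aestronglyMeasurable
    (Filter.Eventually.of_forall fun x => (hb x).trans (le_abs_self K))

theorem int_lip {g : ℝ → ℂ} {K : ℝ} (hm : Measurable g) (hb : ∀ x, ‖g x‖ ≤ K) :
    LipschitzWith K.toNNReal (fun t => ∫ x in (0:ℝ)..t, g x) := by
  have hK : 0 ≤ K := (norm_nonneg _).trans (hb 0)
  apply LipschitzWith.of_dist_le_mul
  intro a b
  rw [dist_eq_norm, intervalIntegral.integral_interval_sub_left (bdd_int hm hb _ _)
    (bdd_int hm hb _ _), Real.coe_toNNReal K hK, Real.dist_eq]
  exact intervalIntegral.norm_integral_le_of_norm_le_const fun x _ => hb x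

section curve

variable {C : ℝ → ℂ}

theorem norm_deriv_le_one (h : LipschitzWith 1 C) (x : ℝ) : ‖deriv C x‖ ≤ 1 := by
  simpa using norm_deriv_le_of_lipschitz h (x₀ := x)

theorem lip_ftc (h : LipschitzWith 1 C) (a b : ℝ) : ∫ x in a..b, deriv C x = C b - C a := by
  have hm : Measurable (deriv C) := measurable_deriv C
  have hb := norm_deriv_le_one h
  have key : ∀ t, C t - ∫ x in (0:ℝ)..t, deriv C x = C 0 := by
    intro t
    have hL : LocallyLipschitz fun t => C t - ∫ x in (0:ℝ)..t, deriv C x := by
      have h1 : LipschitzWith (1 + (1:ℝ).toNNReal) fun t => C t - ∫ x in (0:ℝ)..t, deriv C x :=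
        h.sub (int_lip hm hb)
      exact h1.locallyLipschitz
    have h0 : ∀ᵐ x : ℝ, HasDerivAt (fun t => C t - ∫ x in (0:ℝ)..t, deriv C x) 0 x := by
      filter_upwards [h.ae_differentiableAt_real,
        _root_.LocallyIntegrable.ae_hasDerivAt_integral (bdd_locInt hm hb)]
        with x hx1 hx2
      have := hx1.hasDerivAt.sub (hx2 0)
      rw [sub_self] at this
      exact this
    have := ll_const hL h0 t
    simpa using this
  have ha := key a
  have hb' := key b
  have := intervalIntegral.integral_interval_sub_left (bdd_int hm hb 0 b) (bdd_int hm hb 0 a)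
  rw [← this]
  linear_combination ha - hb'

theorem arc_lip (hC : IsConvexCurve C) : LipschitzWith 1 C := by
  apply LipschitzWith.of_dist_le_mul
  have key : ∀ x y : ℝ, x ≤ y → dist (C x) (C y) ≤ y - x := by
    intro x y hxy
    have h1 := eVariationOn.edist_le C (left_mem_Icc.2 hxy) (right_mem_Icc.2 hxy)
    rw [hC.arc x y hxy, edist_dist] at h1
    exact (ENNReal.ofReal_le_ofReal_iff (sub_nonneg.2 hxy)).1 h1
  intro x y
  simp only [NNReal.coe_one, one_mul]
  rcases le_total x y with h | h
  · rw [Real.dist_eq, abs_sub_comm, abs_of_nonneg (sub_nonneg.2 h)]; exact key x y h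
  · rw [Real.dist_eq, abs_of_nonneg (sub_nonneg.2 h), dist_comm]; exact key y x h

theorem arc_speed (hC : IsConvexCurve C) : ∀ᵐ t : ℝ, ‖deriv C t‖ = 1 := by
  have hL := arc_lip hC
  have hm : Measurable fun x => ‖deriv C x‖ := (measurable_deriv C).norm
  have hb := norm_deriv_le_one hL
  have hi : ∀ a b, IntervalIntegrable (fun x => ‖deriv C x‖) volume a b := fun a b =>
    (bdd_int (measurable_deriv C) hb a b).norm
  have hle : ∀ s t, s ≤ t → t - s ≤ ∫ x in s..t, ‖deriv C x‖ := by
    intro s t hst
    have hI0 : 0 ≤ ∫ x in s..t, ‖deriv C x‖ :=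
      intervalIntegral.integral_nonneg hst fun x _ => norm_nonneg _
    rw [← ENNReal.ofReal_le_ofReal_iff hI0, ← hC.arc s t hst]
    unfold eVariationOn
    apply iSup_le
    rintro ⟨n, u, hu, hus⟩
    simp only
    calc ∑ i ∈ Finset.range n, edist (C (u (i + 1))) (C (u i))
        ≤ ∑ i ∈ Finset.range n, ENNReal.ofReal (∫ x in (u i)..(u (i+1)), ‖deriv C x‖) := by
          apply Finset.sum_le_sum
          intro i _
          rw [edist_dist, dist_eq_norm, ← lip_ftc hL]
          apply ENNReal.ofReal_le_ofReal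
          exact intervalIntegral.norm_integral_le_integral_norm (hu (Nat.le_succ i))
      _ = ENNReal.ofReal (∑ i ∈ Finset.range n, ∫ x in (u i)..(u (i+1)), ‖deriv C x‖) := by
          rw [ENNReal.ofReal_sum_of_nonneg]
          intro i _
          exact intervalIntegral.integral_nonneg (hu (Nat.le_succ i)) fun x _ => norm_nonneg _
      _ = ENNReal.ofReal (∫ x in (u 0)..(u n), ‖deriv C x‖) := by
          rw [intervalIntegral.sum_integral_adjacent_intervals]
          intro k _; exact hi _ _
      _ ≤ ENNReal.ofReal (∫ x in s..t, ‖deriv C x‖) := by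
          apply ENNReal.ofReal_le_ofReal
          apply intervalIntegral.integral_mono_interval (hus 0).1 (hu (Nat.zero_le n)) (hus n).2
          · exact Filter.Eventually.of_forall fun x => norm_nonneg _
          · exact hi _ _
  have hge : ∀ s t, s ≤ t → ∫ x in s..t, ‖deriv C x‖ ≤ t - s := by
    intro s t hst
    calc ∫ x in s..t, ‖deriv C x‖ ≤ ∫ x in s..t, (1:ℝ) :=
          intervalIntegral.integral_mono_on hst (hi _ _) intervalIntegrable_const fun x _ => hb x
      _ = t - s := by simp
  have heq : (fun t => ∫ x in (0:ℝ)..t, ‖deriv C x‖) = fun t => t := by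
    funext t
    rcases le_total 0 t with h | h
    · have a := hle 0 t h
      have b := hge 0 t h
      linarith
    · have a := hle t 0 h
      have b := hge t 0 h
      rw [intervalIntegral.integral_symm]
      linarith
  have hloc : LocallyIntegrable (fun x => ‖deriv C x‖) volume :=
    (locallyIntegrable_const (1:ℝ)).mono hm.aestronglyMeasurable
      (Filter.Eventually.of_forall fun x => by simpa using hb x)
  filter_upwards [_root_.LocallyIntegrable.ae_hasDerivAt_integral hloc] with x hx
  have h1 := hx 0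
  rw [heq] at h1
  exact h1.unique (hasDerivAt_id' x)

theorem deriv_shift (hC : IsConvexCurve C) (t : ℝ) : deriv C (t + 1) = deriv C t := by
  have : (fun x => C (x + 1)) = C := funext hC.periodic
  have h := deriv_comp_add_const C 1 t
  rw [this] at h
  exact h.symm

theorem inj_shift (hC : IsConvexCurve C) {r t : ℝ} (h1 : t < r) (h2 : r < t + 1) : C r ≠ C t := by
  intro h
  have hfr : C (Int.fract r) = C r := by
    have := (hC.periodic.sub_zsmul_eq (x := r) ⌊r⌋)
    rw [zsmul_one] at this
    exact this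
  have hft : C (Int.fract t) = C t := by
    have := (hC.periodic.sub_zsmul_eq (x := t) ⌊t⌋)
    rw [zsmul_one] at this
    exact this
  have h3 : Int.fract r = Int.fract t := by
    apply hC.inj ⟨Int.fract_nonneg r, Int.fract_lt_one r⟩ ⟨Int.fract_nonneg t, Int.fract_lt_one t⟩
    rw [hfr, hft, h]
  rw [Int.fract_eq_fract] at h3
  obtain ⟨z, hz⟩ := h3
  have a : (0:ℝ) < z := by rw [← hz]; linarith
  have b : (z:ℝ) < 1 := by rw [← hz]; linarith
  have a' : 0 < z := by exact_mod_cast a
  have b' : z < 1 := by exact_mod_cast b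
  omega

/-- the angle of the position vector seen from an interior point, and its properties -/
theorem angle_exists (hC : IsConvexCurve C) : ∃ (O : ℂ) (φ : ℝ → ℝ), Continuous φ ∧ StrictMono φ ∧
    (∀ t, φ (t + 1) = φ t + 2 * π) ∧ (∀ t, 0 < ‖C t - O‖) ∧
    (∀ t, C t - O = (‖C t - O‖ : ℂ) * Complex.exp ((φ t : ℝ) * I)) ∧
    (∀ t, DifferentiableAt ℝ C t → ‖deriv C t‖ = 1 → 0 < cross (deriv C t) (O - C t)) ∧
    (∀ s t, DifferentiableAt ℝ C t → 0 ≤ cross (deriv C t) (C s - C t)) := by
  have hL := arc_lip hC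
  obtain ⟨K, hKconv, hKc, ⟨O, hO⟩, hKfr, hleft⟩ := hC.body
  obtain ⟨δ, hδ, hball⟩ := Metric.isOpen_iff.1 isOpen_interior O hO
  have hCfr : ∀ t, C t ∈ frontier K := fun t => hKfr ▸ mem_range_self t
  have hCK : ∀ t, C t ∈ K := fun t => hKc.isClosed.frontier_subset (hCfr t)
  have hdist : ∀ t, δ ≤ ‖C t - O‖ := by
    intro t; by_contra h; push Not at h
    have : C t ∈ interior K := hball (by rwa [Metric.mem_ball, dist_eq_norm])
    exact (hCfr t).2 this
  have hpos : ∀ t, 0 < ‖C t - O‖ := fun t => hδ.trans_le (hdist t)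
  have hne : ∀ t, C t - O ≠ 0 := fun t => norm_pos_iff.1 (hpos t)
  have hb := norm_deriv_le_one hL
  set g : ℝ → ℂ := fun r => deriv C r / (C r - O) with hg
  have hgm : Measurable g := (measurable_deriv C).div (hC.cont.measurable.sub_const O)
  have hgb : ∀ x, ‖g x‖ ≤ 1 / δ := by
    intro x
    simp only [hg, norm_div]
    exact div_le_div₀ zero_le_one (hb x) hδ (hdist x)
  set L : ℝ → ℂ := fun t => ∫ x in (0:ℝ)..t, g x with hLdef
  have hLlip : LipschitzWith (1 / δ).toNNReal L := int_lip hgm hgb
  have hid : ∀ t, C t - O = (C 0 - O) * Complex.exp (L t) := by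
    intro t
    have hZ : LocallyLipschitz fun t => (C t - O) * Complex.exp (-(L t)) := by
      have h1 : ContDiff ℝ 1 fun z : ℂ × ℂ => (z.1 - O) * Complex.exp (-z.2) :=
        (contDiff_fst.sub contDiff_const).mul (contDiff_snd.neg.cexp)
      exact h1.locallyLipschitz.comp (hL.locallyLipschitz.prodMk hLlip.locallyLipschitz)
    have h0 : ∀ᵐ x : ℝ, HasDerivAt (fun t => (C t - O) * Complex.exp (-(L t))) 0 x := by
      filter_upwards [hL.ae_differentiableAt_real,
        _root_.LocallyIntegrable.ae_hasDerivAt_integral (bdd_locInt hgm hgb)] with x hx1 hx2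
      have := (hx1.hasDerivAt.sub_const O).mul ((hx2 0).neg.cexp)
      refine this.congr_deriv ?_
      have h3 := hne x
      simp only [hg]
      field_simp
      ring
    have h2 := ll_const hZ h0 t
    have h3 : L 0 = 0 := by simp [hLdef]
    simp only [h3, neg_zero, Complex.exp_zero, mul_one] at h2
    rw [← h2, mul_assoc, ← Complex.exp_add]
    simp
  set φ : ℝ → ℝ := fun t => Complex.arg (C 0 - O) + (L t).im with hφ
  have hφc : Continuous φ := continuous_const.add (Complex.continuous_im.comp hLlip.continuous)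
  have hpolar : ∀ t, C t - O = (‖C t - O‖ : ℂ) * Complex.exp ((φ t : ℝ) * I) := by
    intro t
    have h1 : ‖C t - O‖ = ‖C 0 - O‖ * Real.exp (L t).re := by
      rw [hid t, norm_mul, Complex.norm_exp]
    have h2 : (C 0 - O) = (‖C 0 - O‖ : ℂ) * Complex.exp ((Complex.arg (C 0 - O) : ℝ) * I) :=
      (Complex.norm_mul_exp_arg_mul_I _).symm
    have h3 : Complex.exp (L t) = (Real.exp (L t).re : ℂ) * Complex.exp (((L t).im : ℝ) * I) := by
      rw [Complex.ofReal_exp, ← Complex.exp_add, Complex.re_add_im]
    have h4 : Complex.exp ((φ t : ℝ) * I)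
        = Complex.exp ((Complex.arg (C 0 - O) : ℝ) * I) * Complex.exp (((L t).im : ℝ) * I) := by
      rw [← Complex.exp_add]; congr 1; simp only [hφ]; push_cast; ring
    calc C t - O = (C 0 - O) * Complex.exp (L t) := hid t
      _ = ((‖C 0 - O‖ : ℂ) * Complex.exp ((Complex.arg (C 0 - O) : ℝ) * I))
          * ((Real.exp (L t).re : ℂ) * Complex.exp (((L t).im : ℝ) * I)) := by rw [← h2, ← h3]
      _ = _ := by rw [h1, h4]; push_cast; ring
  have hcrossO : ∀ t, DifferentiableAt ℝ C t → ‖deriv C t‖ = 1 →
      0 < cross (deriv C t) (O - C t) := by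
    intro t ht h1
    set v := deriv C t with hv
    have hx : O - ((δ / 2 : ℝ) : ℂ) * (I * v) ∈ K := by
      apply interior_subset
      apply hball
      rw [Metric.mem_ball, dist_eq_norm]
      have : ‖O - ((δ / 2 : ℝ) : ℂ) * (I * v) - O‖ = δ / 2 := by
        rw [sub_sub_cancel_left, norm_neg, norm_mul, norm_mul, Complex.norm_I, h1,
          Complex.norm_real, Real.norm_of_nonneg (by linarith)]
        ring
      rw [this]; linarith
    have h2 := hleft t v ht.hasDerivAt _ hx
    have h3 : cross v (O - ((δ / 2 : ℝ) : ℂ) * (I * v) - C t) = cross v (O - C t) - δ / 2 := by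
      have hn : v.re ^ 2 + v.im ^ 2 = 1 := by
        have := Complex.sq_norm v
        rw [h1, Complex.normSq_apply] at this
        linarith
      simp only [cross, Complex.sub_re, Complex.sub_im, Complex.mul_re, Complex.mul_im,
        Complex.I_re, Complex.I_im, Complex.ofReal_re, Complex.ofReal_im]
      linear_combination (-(δ / 2)) * hn
    rw [h3] at h2
    linarith
  have hgim : ∀ᵐ t : ℝ, 0 < (g t).im := by
    filter_upwards [hL.ae_differentiableAt_real, arc_speed hC] with t ht1 ht2
    have h1 := hcrossO t ht1 ht2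
    have h2 : (g t).im = cross (deriv C t) (O - C t) / Complex.normSq (C t - O) := by
      simp only [hg, Complex.div_im, cross, Complex.sub_re, Complex.sub_im]
      ring
    rw [h2]
    exact div_pos h1 (Complex.normSq_pos.2 (hne t))
  have hgi : ∀ a b, IntervalIntegrable g volume a b := bdd_int hgm hgb
  have hφm : StrictMono φ := by
    intro s t hst
    have h1 : φ t - φ s = ∫ x in s..t, (g x).im := by
      have h2 : L t - L s = ∫ x in s..t, g x :=
        intervalIntegral.integral_interval_sub_left (hgi _ _) (hgi _ _)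
      have h3 : (∫ x in s..t, (g x).im) = (∫ x in s..t, g x).im :=
        Complex.imCLM.intervalIntegral_comp_comm (hgi s t)
      rw [h3, ← h2, Complex.sub_im]
      simp only [hφ]; ring
    have h4 : 0 < ∫ x in s..t, (g x).im := by
      rw [intervalIntegral.integral_pos_iff_support_of_nonneg_ae' (μ := volume)]
      · refine ⟨hst, ?_⟩
        have : volume (Function.support (fun x => (g x).im) ∩ Ioc s t) = volume (Ioc s t) := by
          apply measure_congr
          filter_upwards [hgim] with x hx
          apply propext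
          constructor
          · intro h; exact h.2
          · intro h; exact ⟨hx.ne', h⟩
        rw [this, Real.volume_Ioc]
        exact ENNReal.ofReal_pos.2 (by linarith)
      · exact ae_restrict_of_ae (hgim.mono fun x hx => hx.le)
      · exact ⟨Complex.imCLM.integrable_comp (hgi s t).1, Complex.imCLM.integrable_comp (hgi s t).2⟩
    linarith
  refine ⟨O, φ, hφc, hφm, ?_, hpos, hpolar, hcrossO, fun s t ht => hleft t _ ht.hasDerivAt _ (hCK s)⟩
  -- the shift
  intro t
  have h1 : Complex.exp ((φ (t + 1) : ℝ) * I) = Complex.exp ((φ t : ℝ) * I) := by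
    have a := hpolar (t + 1)
    have b := hpolar t
    rw [hC.periodic t, b] at a
    have hn : (‖C t - O‖ : ℂ) ≠ 0 := by exact_mod_cast (hpos t).ne'
    have c : (‖(‖C t - O‖ : ℂ) * Complex.exp ((φ t : ℝ) * I)‖ : ℝ) = ‖C t - O‖ := by rw [← b]
    rw [c] at a
    exact (mul_left_cancel₀ hn a).symm
  rw [Complex.exp_eq_exp_iff_exists_int] at h1
  obtain ⟨n, hn⟩ := h1
  have h2 : φ (t + 1) = φ t + n * (2 * π) := by
    have h3 : ((φ (t + 1) : ℝ) : ℂ) = ((φ t + n * (2 * π) : ℝ) : ℂ) := by
      have hI : (I : ℂ) ≠ 0 := Complex.I_ne_zero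
      apply mul_right_cancel₀ hI
      rw [hn]; push_cast; ring
    exact_mod_cast h3
  have h3 : φ t < φ (t + 1) := hφm (by linarith)
  have hpi := Real.pi_pos
  have hn1 : 1 ≤ n := by
    by_contra hcon
    have : n ≤ 0 := by omega
    have : (n : ℝ) ≤ 0 := by exact_mod_cast this
    nlinarith
  have hn2 : n ≤ 1 := by
    by_contra hcon
    have h4 : 2 ≤ n := by omega
    have h4' : (2:ℝ) ≤ n := by exact_mod_cast h4
    have h5 : φ t + 2 * π ∈ Ioo (φ t) (φ (t + 1)) := ⟨by linarith, by nlinarith⟩
    obtain ⟨r, hr, hre⟩ := intermediate_value_Ioo (by linarith : t ≤ t + 1) hφc.continuousOn h5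
    have hne' := inj_shift hC hr.1 hr.2
    -- same direction
    have hdir : C r - O = (‖C r - O‖ : ℂ) * Complex.exp ((φ t : ℝ) * I) := by
      have := hpolar r
      rw [hre, exp_per] at this
      exact this
    -- compare the distances
    have key : ∀ a b : ℝ, C a - O = (‖C a - O‖ : ℂ) * Complex.exp ((φ t : ℝ) * I) →
        C b - O = (‖C b - O‖ : ℂ) * Complex.exp ((φ t : ℝ) * I) →
        ‖C a - O‖ < ‖C b - O‖ → False := by
      intro a b ha hb hlt
      apply (hCfr a).2
      have hbcl : C b ∈ closure K := subset_closure (hCK b)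
      apply hKconv.openSegment_interior_closure_subset_interior hO hbcl
      set lam := ‖C a - O‖ / ‖C b - O‖ with hlam
      have hl0 : 0 < lam := div_pos (hpos a) (hpos b)
      have hl1 : lam < 1 := (div_lt_one (hpos b)).2 hlt
      refine ⟨1 - lam, lam, by linarith, hl0, by ring, ?_⟩
      have : C a - O = (lam : ℂ) * (C b - O) := by
        rw [ha, hb, hlam]
        have hb0 : (‖C b - O‖ : ℂ) ≠ 0 := by exact_mod_cast (hpos b).ne'
        push_cast
        field_simp
      rw [Complex.real_smul, Complex.real_smul]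
      push_cast
      linear_combination (-1 : ℂ) * this
    rcases lt_trichotomy ‖C r - O‖ ‖C t - O‖ with h | h | h
    · exact key r t hdir (hpolar t) h
    · apply hne'
      have : C r - O = C t - O := by rw [hdir, h, ← hpolar t]
      exact sub_left_inj.1 this
    · exact key t r (hpolar t) hdir h
  have : n = 1 := le_antisymm hn2 hn1
  rw [h2, this]; push_cast; ring

/-- the tangent angle -/
theorem structure_thm (hC : IsConvexCurve C) : ∃ θ : ℝ → ℝ, Monotone θ ∧
    (∀ t, θ (t + 1) = θ t + 2 * π) ∧
    ∀ t, C t = C 0 + ∫ x in (0:ℝ)..t, Complex.exp ((θ x : ℝ) * I) := by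
  obtain ⟨O, φ, hφc, hφm, hφs, hpos, hpolar, hcr, hleft⟩ := angle_exists hC
  have hL := arc_lip hC
  have hpi := Real.pi_pos
  set S : Set ℝ := {t | DifferentiableAt ℝ C t ∧ ‖deriv C t‖ = 1} with hS
  have hSae : ∀ᵐ t : ℝ, t ∈ S := by
    filter_upwards [hL.ae_differentiableAt_real, arc_speed hC] with t h1 h2 using ⟨h1, h2⟩
  have hSshift : ∀ t, t + 1 ∈ S ↔ t ∈ S := by
    intro t
    have h0 : (fun x => C (x + 1)) = C := funext hC.periodic
    have h1 : DifferentiableAt ℝ C (t + 1) ↔ DifferentiableAt ℝ C t := by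
      constructor
      · intro h
        have h2 := h.comp t ((differentiableAt_id (x := t)).add_const (1:ℝ))
        have h3 : C ∘ (fun x : ℝ => id x + 1) = C := h0
        rw [h3] at h2
        exact h2
      · intro h
        have h0' : (fun x => C (x - 1)) = C := by
          funext x
          have := hC.periodic (x - 1)
          rw [sub_add_cancel] at this
          exact this.symm
        have h4 : DifferentiableAt ℝ C (t + 1 - 1) := by rwa [add_sub_cancel_right]
        have h2 := h4.comp (t + 1) ((differentiableAt_id (x := t + 1)).sub_const (1:ℝ))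
        have h3 : C ∘ (fun x : ℝ => id x - 1) = C := h0'
        rw [h3] at h2
        exact h2
    simp only [hS, Set.mem_ofPred_eq, deriv_shift hC t, h1]
  -- the tangent angle on `S`
  set ψ : ℝ → ℝ := fun t => φ t + Complex.arg (deriv C t * Complex.exp (-((φ t : ℝ) * I))) with hψ
  have hψexp : ∀ t ∈ S, Complex.exp ((ψ t : ℝ) * I) = deriv C t := by
    intro t ht
    have h1 : ‖deriv C t * Complex.exp (-((φ t : ℝ) * I))‖ = 1 := by
      rw [norm_mul, ht.2, ← neg_mul, ← Complex.ofReal_neg, exp_norm, one_mul]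
    have h2 := Complex.norm_mul_exp_arg_mul_I (deriv C t * Complex.exp (-((φ t : ℝ) * I)))
    rw [h1, Complex.ofReal_one, one_mul] at h2
    have h3 : Complex.exp ((ψ t : ℝ) * I) = Complex.exp ((φ t : ℝ) * I)
        * Complex.exp ((Complex.arg (deriv C t * Complex.exp (-((φ t : ℝ) * I))) : ℝ) * I) := by
      rw [← Complex.exp_add]; congr 1; simp only [hψ]; push_cast; ring
    rw [h3, h2, mul_comm, mul_assoc, ← Complex.exp_add]
    simp
  have hψrange : ∀ t ∈ S, φ t < ψ t ∧ ψ t < φ t + π := by
    intro t ht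
    have h1 := hcr t ht.1 ht.2
    have h2 : 0 < (deriv C t * Complex.exp (-((φ t : ℝ) * I))).im := by
      have h3 : cross (deriv C t) (O - C t)
          = ‖C t - O‖ * (deriv C t * Complex.exp (-((φ t : ℝ) * I))).im := by
        have h4 : O - C t = -((‖C t - O‖ : ℂ) * Complex.exp ((φ t : ℝ) * I)) := by
          rw [← hpolar t]; ring
        have h5 : Complex.exp (-((φ t : ℝ) * I)) = Complex.exp (((-φ t : ℝ) : ℂ) * I) := by
          congr 1; push_cast; ring
        rw [h4, h5]
        simp only [cross, Complex.neg_re, Complex.neg_im, Complex.mul_re, Complex.mul_im,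
          Complex.exp_ofReal_mul_I_re, Complex.exp_ofReal_mul_I_im, Complex.ofReal_re,
          Complex.ofReal_im, Real.cos_neg, Real.sin_neg]
        ring
      rw [h3] at h1
      exact (mul_pos_iff_of_pos_left (hpos t)).1 h1
    have h6 := Complex.arg_lt_pi_iff.2 (Or.inr h2.ne')
    have h7 : 0 < Complex.arg (deriv C t * Complex.exp (-((φ t : ℝ) * I))) := by
      rcases (Complex.arg_nonneg_iff.2 h2.le).eq_or_lt with h | h
      · have := Complex.arg_eq_zero_iff.1 h.symm
        exact absurd this.2 h2.ne'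
      · exact h
    constructor <;> simp only [hψ] <;> linarith
  have hsinle : ∀ a b : ℝ, |a - b| < π → 0 ≤ Real.sin (b - a) → a ≤ b := by
    intro a b hab hs
    by_contra hcon
    push Not at hcon
    have h1 := (abs_lt.1 hab).2
    have := Real.sin_pos_of_pos_of_lt_pi (x := a - b) (by linarith) h1
    rw [← neg_sub, Real.sin_neg] at hs
    linarith
  have hψmono : ∀ s ∈ S, ∀ t ∈ S, s < t → ψ s ≤ ψ t := by
    intro s hs t ht hst
    have hφst := hφm hst
    obtain ⟨a1, a2⟩ := hψrange s hs
    obtain ⟨b1, b2⟩ := hψrange t ht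
    by_cases hbig : φ s + π ≤ φ t
    · linarith
    push Not at hbig
    -- the chord
    set w := C t - C s with hw
    have hwp : w = (‖C t - O‖ : ℂ) * Complex.exp ((φ t : ℝ) * I)
        - (‖C s - O‖ : ℂ) * Complex.exp ((φ s : ℝ) * I) := by
      rw [← hpolar t, ← hpolar s]; ring
    have e1 : 0 < cross (Complex.exp ((φ s : ℝ) * I)) w := by
      rw [hwp, cross_sub, cross_smul, cross_smul, cross_exp, cross_exp, sub_self, Real.sin_zero,
        mul_zero, sub_zero]
      exact mul_pos (hpos t) (Real.sin_pos_of_pos_of_lt_pi (by linarith) (by linarith))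
    have e2 : 0 < cross (Complex.exp ((φ t : ℝ) * I)) w := by
      rw [hwp, cross_sub, cross_smul, cross_smul, cross_exp, cross_exp, sub_self, Real.sin_zero,
        mul_zero, zero_sub, ← mul_neg, ← Real.sin_neg, neg_sub]
      exact mul_pos (hpos s) (Real.sin_pos_of_pos_of_lt_pi (by linarith) (by linarith))
    have hw0 : w ≠ 0 := by
      intro h; rw [h] at e1; simp [cross] at e1
    -- the angle `om` of the chord, in `(φ t, φ s + π)`
    have h5 : Complex.exp (-((φ s : ℝ) * I)) = Complex.exp (((-φ s : ℝ) : ℂ) * I) := by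
      congr 1; push_cast; ring
    set om : ℝ := φ s + Complex.arg (w * Complex.exp (((-φ s : ℝ) : ℂ) * I)) with hom
    have homexp : w = (‖w‖ : ℂ) * Complex.exp ((om : ℝ) * I) := by
      have h2 := Complex.norm_mul_exp_arg_mul_I (w * Complex.exp (((-φ s : ℝ) : ℂ) * I))
      rw [norm_mul, exp_norm, mul_one] at h2
      have h3 : Complex.exp ((om : ℝ) * I) = Complex.exp ((φ s : ℝ) * I)
          * Complex.exp ((Complex.arg (w * Complex.exp (((-φ s : ℝ) : ℂ) * I)) : ℝ) * I) := by
        rw [← Complex.exp_add]; congr 1; simp only [hom]; push_cast; ring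
      rw [h3]
      have h4 : Complex.exp (((-φ s : ℝ) : ℂ) * I) * Complex.exp ((φ s : ℝ) * I) = 1 := by
        rw [← Complex.exp_add, ← add_mul, ← Complex.ofReal_add]; simp
      calc w = (w * Complex.exp (((-φ s : ℝ) : ℂ) * I)) * Complex.exp ((φ s : ℝ) * I) := by
            rw [mul_assoc, h4, mul_one]
        _ = ((‖w‖ : ℂ) * Complex.exp ((Complex.arg (w * Complex.exp (((-φ s : ℝ) : ℂ) * I)) : ℝ) * I))
            * Complex.exp ((φ s : ℝ) * I) := by rw [h2]
        _ = _ := by ring
    have hwn : 0 < ‖w‖ := norm_pos_iff.2 hw0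
    have hs1 : 0 < Real.sin (om - φ s) := by
      rw [homexp, cross_smul, cross_exp] at e1
      exact (mul_pos_iff_of_pos_left hwn).1 e1
    have hs2 : 0 < Real.sin (om - φ t) := by
      rw [homexp, cross_smul, cross_exp] at e2
      exact (mul_pos_iff_of_pos_left hwn).1 e2
    have homr : om - φ s ∈ Ioo 0 π := by
      have r1 : om - φ s = Complex.arg (w * Complex.exp (((-φ s : ℝ) : ℂ) * I)) := by
        simp only [hom]; ring
      have r2 := Complex.arg_le_pi (w * Complex.exp (((-φ s : ℝ) : ℂ) * I))
      have r3 := Complex.neg_pi_lt_arg (w * Complex.exp (((-φ s : ℝ) : ℂ) * I))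
      rw [← r1] at r2 r3
      constructor
      · by_contra hcon
        push Not at hcon
        have := Real.sin_nonpos_of_nonpos_of_neg_pi_le hcon r3.le
        linarith
      · rcases r2.eq_or_lt with h | h
        · rw [h, Real.sin_pi] at hs1; exact absurd hs1 (lt_irrefl _)
        · exact h
    have homt : φ t < om := by
      by_contra hcon
      push Not at hcon
      have : Real.sin (om - φ t) ≤ 0 := by
        apply Real.sin_nonpos_of_nonpos_of_neg_pi_le (by linarith)
        linarith [homr.1]
      linarith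
    -- compare
    have f1 : 0 ≤ Real.sin (om - ψ s) := by
      have := hleft t s hs.1
      rw [← hw, homexp, ← hψexp s hs, cross_smul, cross_exp] at this
      exact (mul_nonneg_iff_of_pos_left hwn).1 this
    have f2 : 0 ≤ Real.sin (ψ t - om) := by
      have := hleft s t ht.1
      have h8 : C s - C t = -w := by rw [hw]; ring
      have h9 : cross (deriv C t) (-w) = cross w (deriv C t) := by simp [cross]; ring
      rw [h8, h9, homexp, ← hψexp t ht] at this
      have h10 : cross ((‖w‖ : ℂ) * Complex.exp ((om : ℝ) * I)) (Complex.exp ((ψ t : ℝ) * I))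
          = ‖w‖ * Real.sin (ψ t - om) := by
        rw [← cross_exp]; simp [cross]; ring
      rw [h10] at this
      exact (mul_nonneg_iff_of_pos_left hwn).1 this
    have g1 : ψ s ≤ om := by
      apply hsinle _ _ _ f1
      rw [abs_lt]; constructor <;> linarith [homr.1, homr.2]
    have g2 : om ≤ ψ t := by
      apply hsinle _ _ _ f2
      rw [abs_lt]; constructor <;> linarith [homr.1, homr.2]
    exact g1.trans g2
  have hψmono' : ∀ s ∈ S, ∀ t ∈ S, s ≤ t → ψ s ≤ ψ t := by
    intro s hs t ht hst
    rcases hst.eq_or_lt with h | h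
    · rw [h]
    · exact hψmono s hs t ht h
  have hψshift : ∀ t, ψ (t + 1) = ψ t + 2 * π := by
    intro t
    simp only [hψ]
    rw [deriv_shift hC t, hφs]
    have : Complex.exp (-(((φ t + 2 * π : ℝ) : ℂ) * I)) = Complex.exp (-((φ t : ℝ) * I)) := by
      rw [Complex.exp_neg, exp_per, ← Complex.exp_neg]
    rw [this]; ring
  -- density of `S`
  have hSdense : ∀ t, (S ∩ Iic t).Nonempty := by
    intro t
    by_contra hcon
    rw [not_nonempty_iff_eq_empty] at hcon
    have h1 : volume (Iic t) = 0 := by
      have : Iic t ⊆ Sᶜ := fun x hx hxS => by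
        have : x ∈ S ∩ Iic t := ⟨hxS, hx⟩
        rw [hcon] at this; exact this
      exact measure_mono_null this hSae
    rw [Real.volume_Iic] at h1
    exact ENNReal.top_ne_zero h1
  have hbdd : ∀ t, BddAbove (ψ '' (S ∩ Iic t)) := by
    intro t
    refine ⟨φ t + π, ?_⟩
    rintro _ ⟨s, ⟨hs, hst⟩, rfl⟩
    have := (hψrange s hs).2
    have := hφm.monotone hst
    linarith
  set θ : ℝ → ℝ := fun t => sSup (ψ '' (S ∩ Iic t)) with hθ
  have hθeq : ∀ t ∈ S, θ t = ψ t := by
    intro t ht
    apply le_antisymm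
    · apply csSup_le ((hSdense t).image ψ)
      rintro _ ⟨s, ⟨hs, hst⟩, rfl⟩
      exact hψmono' s hs t ht hst
    · exact le_csSup (hbdd t) ⟨t, ⟨ht, le_refl t⟩, rfl⟩
  refine ⟨θ, ?_, ?_, ?_⟩
  · intro a b hab
    apply csSup_le_csSup (hbdd b) ((hSdense a).image ψ)
    exact image_mono fun x hx => ⟨hx.1, hx.2.trans hab⟩
  · intro t
    apply le_antisymm
    · apply csSup_le ((hSdense (t + 1)).image ψ)
      rintro _ ⟨s, ⟨hs, hst⟩, rfl⟩
      have h1 : s - 1 ∈ S := by rw [← hSshift, sub_add_cancel]; exact hs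
      have h2 : ψ s = ψ (s - 1) + 2 * π := by
        have := hψshift (s - 1); rwa [sub_add_cancel] at this
      have hst' : s ≤ t + 1 := hst
      have h3 : ψ (s - 1) ≤ θ t := le_csSup (hbdd t) ⟨s - 1, ⟨h1, by rw [mem_Iic]; linarith⟩, rfl⟩
      linarith
    · have : θ t ≤ θ (t + 1) - 2 * π := by
        apply csSup_le ((hSdense t).image ψ)
        rintro _ ⟨s, ⟨hs, hst⟩, rfl⟩
        have hst' : s ≤ t := hst
        have h3 : ψ (s + 1) ≤ θ (t + 1) :=
          le_csSup (hbdd (t + 1)) ⟨s + 1, ⟨(hSshift s).2 hs, by rw [mem_Iic]; linarith⟩, rfl⟩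
        rw [hψshift] at h3
        linarith
      linarith
  · intro t
    have h1 := lip_ftc hL 0 t
    have h2 : ∫ x in (0:ℝ)..t, Complex.exp ((θ x : ℝ) * I) = ∫ x in (0:ℝ)..t, deriv C x := by
      apply intervalIntegral.integral_congr_ae
      filter_upwards [hSae] with x hx _
      rw [hθeq x hx, hψexp x hx]
    rw [h2, h1]; ring

end curve

end Pool.Agent.X206.Bill
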