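import Mathlib

/-!
# Radial limits on the infinite-dimensional torus
-/

set_option autoImplicit false

open MeasureTheory Filter Topology ProbabilityTheory Complex Metric
open scoped Real

namespace Pool.Agent.X206.TorusRadial

instance factTwoPi : Fact (0 < 2 * π) := ⟨Real.two_pi_pos⟩

/-- The circle `ℝ / 2πℤ`. -/
abbrev T : Type := AddCircle (2 * π)

/-- `e^{iθ}` -/
noncomputable def e (θ : T) : ℂ := (AddCircle.toCircle θ : ℂ)

/-- normalised arc length on the circle -/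
noncomputable def arc : Measure T := AddCircle.haarAddCircle

instance : IsProbabilityMeasure arc := by unfold arc; infer_instance

/-- The infinite-dimensional torus (in the coordinates `θ`). -/
abbrev TI : Type := ℕ → T

/-- Haar measure of the infinite-dimensional torus -/
noncomputable def haar : Measure TI := Measure.infinitePi fun _ => arc

instance : IsProbabilityMeasure haar := by unfold haar; infer_instance

/-- Fourier coefficient at the finitely supported `α` -/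
noncomputable def fcoef (f : TI → ℂ) (α : ℕ →₀ ℤ) : ℂ :=
  ∫ θ, f θ * α.prod (fun n k => e (θ n) ^ (-k)) ∂haar

/-- `f` is (a bounded measurable representative of) an element of `H^∞(𝕋^∞)`. -/
def HInf (f : TI → ℂ) : Prop :=
  Measurable f ∧ (∃ C : ℝ, ∀ θ, ‖f θ‖ ≤ C) ∧
    ∀ α : ℕ →₀ ℤ, (∃ n, α n < 0) → fcoef f α = 0

/-- One-variable Poisson probability measure of radius `r`. -/
noncomputable def pois (r : Set.Ico (0 : ℝ) 1) : Measure T :=
  arc.withDensity fun φ => ENNReal.ofReal ((1 - (r : ℝ) ^ 2) / ‖e φ - (r : ℝ)‖ ^ 2)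

lemma e_norm (θ : T) : ‖e θ‖ = 1 := Circle.norm_coe _

lemma e_continuous : Continuous e :=
  continuous_subtype_val.comp AddCircle.continuous_toCircle

lemma e_add (θ φ : T) : e (θ + φ) = e θ * e φ := by
  simp [e, AddCircle.toCircle_add]

lemma e_neg (θ : T) : e (-θ) = (e θ)⁻¹ := by
  simp [e, AddCircle.toCircle_neg]

lemma e_sub (θ φ : T) : e (θ - φ) = e θ / e φ := by
  rw [sub_eq_add_neg, e_add, e_neg]; rfl

lemma e_nsmul (d : ℕ) (θ : T) : e (d • θ) = e θ ^ d := by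
  simp [e, AddCircle.toCircle_nsmul]

lemma e_ne_zero (θ : T) : e θ ≠ 0 := by
  intro h
  have := e_norm θ
  rw [h] at this
  simp at this

lemma integral_arc {E : Type*} [NormedAddCommGroup E] [NormedSpace ℝ E] (F : ℂ → E) :
    ∫ θ, F (e θ) ∂arc = Real.circleAverage F 0 1 := by
  unfold arc
  rw [AddCircle.integral_haarAddCircle, Real.circleAverage,
    ← AddCircle.intervalIntegral_preimage (2 * π) 0]
  simp [e, AddCircle.toCircle, circleMap]

lemma integral_analytic {G : ℂ → ℂ} (hG : DiffContOnCl ℂ G (ball 0 1)) :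
    ∫ θ, G (e θ) ∂arc = G 0 := by
  rw [integral_arc]
  have := DiffContOnCl.circleAverage (f := G) (c := 0) (R := 1) (by simpa using hG)
  exact this

lemma dist_symm_aux (θ φ : T) (r : ℝ) :
    ‖e (θ - φ) - (r : ℂ)‖ = ‖e φ - r * e θ‖ := by
  have h1 : ‖e φ - r * e θ‖ = ‖e φ‖ * ‖e θ‖ * ‖(e θ)⁻¹ - r * (e φ)⁻¹‖ := by
    rw [← norm_mul, ← norm_mul]
    congr 1
    have := e_ne_zero θ
    have := e_ne_zero φ
    field_simp
  have h2 : (e θ)⁻¹ - r * (e φ)⁻¹ = (starRingEnd ℂ) (e θ - r * e φ) := by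
    have hc : ∀ θ : T, (starRingEnd ℂ) (e θ) = (e θ)⁻¹ := by
      intro θ
      unfold e
      rw [← Circle.coe_inv_eq_conj, Circle.coe_inv]
    simp [hc]
  rw [h1, h2, e_norm, e_norm, one_mul, one_mul, Complex.norm_conj, e_sub]
  have h3 : e θ / e φ - (r : ℂ) = (e θ - r * e φ) / e φ := by
    have := e_ne_zero φ
    field_simp
  rw [h3, norm_div, e_norm, div_one]

lemma measurable_e : Measurable e := e_continuous.measurable

lemma measurable_pdens (r : ℝ) :
    Measurable (fun φ : T => (1 - r ^ 2) / ‖e φ - (r : ℂ)‖ ^ 2) :=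
  measurable_const.div ((measurable_e.sub_const _).norm.pow_const 2)

lemma pdens_nonneg {r : ℝ} (h0 : 0 ≤ r) (h1 : r < 1) (z : ℂ) :
    0 ≤ (1 - r ^ 2) / ‖z‖ ^ 2 := by
  apply div_nonneg _ (by positivity)
  nlinarith

/-- Poisson integral formula on the circle. -/
lemma integral_pois {G : ℂ → ℂ} (hG : DiffContOnCl ℂ G (ball 0 1)) (r : Set.Ico (0 : ℝ) 1)
    (θ : T) : ∫ φ, G (e (θ - φ)) ∂(pois r) = G (r * e θ) := by
  unfold pois
  rw [integral_withDensity_eq_integral_toReal_smul]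
  · have e1 : ∀ φ : T, (ENNReal.ofReal ((1 - (r : ℝ) ^ 2) / ‖e φ - (r : ℝ)‖ ^ 2)).toReal •
        G (e (θ - φ)) = (fun ψ => ((1 - (r : ℝ) ^ 2) / ‖e ψ - (r : ℝ) * e θ‖ ^ 2) • G (e ψ))
          (θ - φ) := by
      intro φ
      rw [ENNReal.toReal_ofReal (pdens_nonneg r.2.1 r.2.2 _)]
      have := dist_symm_aux θ (θ - φ) r
      rw [sub_sub_cancel] at this
      simp only [this]
    simp only [e1]
    have h2 : ∫ φ, (fun ψ => ((1 - (r : ℝ) ^ 2) / ‖e ψ - (r : ℝ) * e θ‖ ^ 2) • G (e ψ))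
        (θ - φ) ∂arc = ∫ ψ, ((1 - (r : ℝ) ^ 2) / ‖e ψ - (r : ℝ) * e θ‖ ^ 2) • G (e ψ) ∂arc := by
      unfold arc
      exact integral_sub_left_eq_self (fun ψ =>
        ((1 - (r : ℝ) ^ 2) / ‖e ψ - (r : ℝ) * e θ‖ ^ 2) • G (e ψ)) AddCircle.haarAddCircle θ
    rw [h2]
    have hw : (r : ℝ) * e θ ∈ ball (0 : ℂ) 1 := by
      rw [mem_ball_zero_iff, norm_mul, e_norm, mul_one, Complex.norm_real, Real.norm_eq_abs,
        abs_of_nonneg r.2.1]
      exact r.2.2
    have h3 := DiffContOnCl.circleAverage_poissonKernel_smul' hG hw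
    rw [← integral_arc (fun z => ((‖z - 0‖ ^ 2 - ‖(r : ℝ) * e θ - 0‖ ^ 2) /
      ‖(z - 0) - ((r : ℝ) * e θ - 0)‖ ^ 2) • G z)] at h3
    rw [← h3]
    refine integral_congr_ae (Eventually.of_forall fun ψ => ?_)
    simp [e_norm]
  · exact (measurable_pdens r).ennreal_ofReal
  · exact Eventually.of_forall fun _ => ENNReal.ofReal_lt_top

instance (r : Set.Ico (0 : ℝ) 1) : IsProbabilityMeasure (pois r) := by
  have hG : DiffContOnCl ℂ (fun _ : ℂ => (1 : ℂ)) (ball 0 1) := diffContOnCl_const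
  have h1 := integral_pois hG r 0
  have hfin : IsFiniteMeasure (pois r) := by
    unfold pois
    refine isFiniteMeasure_withDensity_ofReal ?_
    refine (Continuous.integrable_of_hasCompactSupport ?_ ?_).2
    · refine continuous_const.div ((e_continuous.sub continuous_const).norm.pow 2) fun φ => ?_
      have : e φ - (r : ℝ) ≠ 0 := by
        intro h
        rw [sub_eq_zero] at h
        have h2 := e_norm φ
        rw [h, Complex.norm_real, Real.norm_eq_abs, abs_of_nonneg r.2.1] at h2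
        exact absurd h2 (ne_of_lt r.2.2)
      positivity
    · exact HasCompactSupport.of_compactSpace _
  rw [integral_const] at h1
  refine ⟨?_⟩
  have h2 : (pois r).real Set.univ = 1 := by
    have := congrArg Complex.re h1
    simpa using this
  exact (ENNReal.toReal_eq_one_iff _).1 h2

/-- The product of the Poisson measures. -/
noncomputable def poisI (r : ℕ → Set.Ico (0 : ℝ) 1) : Measure TI :=
  Measure.infinitePi fun n => pois (r n)

instance (r : ℕ → Set.Ico (0 : ℝ) 1) : IsProbabilityMeasure (poisI r) := by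
  unfold poisI; infer_instance

/-- `f(𝐫 e^{iθ}) = (f * P_𝐫)(θ)`. -/
noncomputable def radial (f : TI → ℂ) (r : ℕ → Set.Ico (0 : ℝ) 1) (θ : TI) : ℂ :=
  ∫ φ, f (θ - φ) ∂(poisI r)

lemma integral_prod_inf (μ : ℕ → Measure T) [∀ n, IsProbabilityMeasure (μ n)] (s : Finset ℕ)
    (u : ℕ → T → ℂ) (hu : ∀ n, Measurable (u n)) :
    ∫ θ, ∏ n ∈ s, u n (θ n) ∂(Measure.infinitePi μ) = ∏ n ∈ s, ∫ t, u n t ∂(μ n) := by
  have hm : Measurable (fun y : s → T => ∏ n : s, u n (y n)) :=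
    Finset.measurable_fun_prod _ fun (n : s) _ => (hu (n : ℕ)).comp (measurable_pi_apply n)
  have h1 := integral_restrict_infinitePi (μ := μ) (s := s)
    (f := fun y : (∀ _ : s, T) => ∏ n : s, u n (y n)) hm.aestronglyMeasurable
  have h2 := integral_fintype_prod_eq_prod (𝕜 := ℂ) (fun (n : s) (t : T) => u n t)
    (μ := fun n : s => μ n)
  rw [h2, Finset.prod_coe_sort s (fun n => ∫ t, u n t ∂(μ n))] at h1
  rw [← h1]
  refine integral_congr_ae (Eventually.of_forall fun θ => ?_)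
  exact (Finset.prod_coe_sort s (fun n => u n (θ n))).symm

lemma haar_sub (φ : TI) : haar.map (fun θ => θ - φ) = haar := by
  unfold haar
  have h := Measure.infinitePi_map_pi (μ := fun _ : ℕ => arc) (f := fun n (t : T) => t - φ n)
    (fun n => measurable_id.sub_const _)
  refine Eq.trans ?_ (h.trans ?_)
  · rfl
  · congr 1
    funext n
    unfold arc
    exact (measurePreserving_sub_right AddCircle.haarAddCircle (φ n)).map_eq

lemma measurable_subTI : Measurable (fun p : TI × TI => p.1 - p.2) :=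
  measurable_pi_lambda _ fun n =>
    ((measurable_pi_apply n).comp measurable_fst).sub ((measurable_pi_apply n).comp measurable_snd)

lemma mp_sub (P : Measure TI) [IsProbabilityMeasure P] :
    MeasurePreserving (fun p : TI × TI => p.1 - p.2) (haar.prod P) haar := by
  refine ⟨measurable_subTI, ?_⟩
  ext A hA
  rw [Measure.map_apply measurable_subTI hA, Measure.prod_apply_symm (measurable_subTI hA)]
  have : ∀ φ : TI, haar ((fun θ => (θ, φ)) ⁻¹' ((fun p : TI × TI => p.1 - p.2) ⁻¹' A)) =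
      haar A := by
    intro φ
    have hm : Measurable (fun θ : TI => θ - φ) :=
      measurable_subTI.comp (measurable_id.prodMk measurable_const)
    conv_rhs => rw [← haar_sub φ, Measure.map_apply hm hA]
    rfl
  simp [this]

/-- The data from which the function is built. -/
structure Data where
  g : ℕ → ℂ → ℂ
  diff : ∀ n, DiffContOnCl ℂ (g n) (ball 0 1)
  bd : ∀ n w, ‖w‖ ≤ 1 → ‖g n w‖ ≤ 1
  nz : ∀ n w, ‖w‖ ≤ 1 → g n w ≠ 0
  s : ℕ → ℕ
  s0 : s 0 = 0
  mono : StrictMono s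
  mean : ∀ j, ∏ n ∈ Finset.Ico (s j) (s (j + 1)), g n 0 = Complex.exp (-((4 : ℝ) ^ (j + 1))⁻¹ : ℝ)

namespace Data

variable (D : Data)

lemma meas_ge (n : ℕ) : Measurable (fun t : T => D.g n (e t)) := by
  have h1 : ContinuousOn (D.g n) (closedBall 0 1) := by
    have := (D.diff n).continuousOn
    rwa [closure_ball (0 : ℂ) one_ne_zero] at this
  have h2 : Continuous (fun t : T => D.g n (e t)) := by
    refine h1.comp_continuous e_continuous fun t => ?_
    simp [e_norm]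
  exact h2.measurable

/-- partial products -/
noncomputable def fJ (J : ℕ) (θ : TI) : ℂ := ∏ n ∈ Finset.range (D.s J), D.g n (e (θ n))

/-- block products -/
noncomputable def FJ (j : ℕ) (θ : TI) : ℂ :=
  ∏ n ∈ Finset.Ico (D.s j) (D.s (j + 1)), D.g n (e (θ n))

lemma fJ_succ (J : ℕ) (θ : TI) : D.fJ (J + 1) θ = D.fJ J θ * D.FJ J θ :=
  (Finset.prod_range_mul_prod_Ico _ (D.mono.monotone (Nat.le_succ J))).symm

lemma fJ_eq (J : ℕ) (θ : TI) : D.fJ J θ = ∏ j ∈ Finset.range J, D.FJ j θ := by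
  induction J with
  | zero => simp [fJ, D.s0]
  | succ J ih => rw [fJ_succ, Finset.prod_range_succ, ih]

lemma meas_fJ (J : ℕ) : Measurable (D.fJ J) :=
  Finset.measurable_fun_prod _ fun n _ => (D.meas_ge n).comp (measurable_pi_apply n)

lemma meas_FJ (j : ℕ) : Measurable (D.FJ j) :=
  Finset.measurable_fun_prod _ fun n _ => (D.meas_ge n).comp (measurable_pi_apply n)

lemma norm_prod_le {s : Finset ℕ} {u : ℕ → ℂ} (hu : ∀ n ∈ s, ‖u n‖ ≤ 1) :
    ‖∏ n ∈ s, u n‖ ≤ 1 := by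
  rw [norm_prod]
  exact Finset.prod_le_one (fun n _ => norm_nonneg _) hu

lemma fJ_le (J : ℕ) (θ : TI) : ‖D.fJ J θ‖ ≤ 1 :=
  norm_prod_le fun n _ => D.bd n _ (e_norm _).le

lemma FJ_le (J : ℕ) (θ : TI) : ‖D.FJ J θ‖ ≤ 1 :=
  norm_prod_le fun n _ => D.bd n _ (e_norm _).le

lemma FJ_ne (J : ℕ) (θ : TI) : D.FJ J θ ≠ 0 :=
  Finset.prod_ne_zero_iff.2 fun n _ => D.nz n _ (e_norm _).le

lemma integral_FJ (j : ℕ) : ∫ θ, D.FJ j θ ∂haar = Complex.exp (-((4 : ℝ) ^ (j + 1))⁻¹ : ℝ) := by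
  rw [← D.mean j]
  unfold FJ haar
  rw [integral_prod_inf (fun _ => arc) _ (fun n t => D.g n (e t)) D.meas_ge]
  exact Finset.prod_congr rfl fun n _ => integral_analytic (D.diff n)

lemma integral_FJ_sub (j : ℕ) : ∫ θ, ‖D.FJ j θ - 1‖ ∂haar ≤ ((1 : ℝ) / 2) ^ j := by
  set t : ℝ := (1 / 2) ^ j with ht
  have htp : 0 < t := by positivity
  have hFi : Integrable (D.FJ j) haar :=
    Integrable.of_bound (D.meas_FJ j).aestronglyMeasurable 1 (Eventually.of_forall (D.FJ_le j))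
  have hRe : Integrable (fun θ => (D.FJ j θ).re) haar := hFi.re
  have hpt : ∀ θ, ‖D.FJ j θ - 1‖ ≤ (1 - (D.FJ j θ).re) / t + t / 2 := by
    intro θ
    have h1 : ‖D.FJ j θ - 1‖ ^ 2 ≤ 2 * (1 - (D.FJ j θ).re) := by
      have h2 := D.FJ_le j θ
      have h3 : ‖D.FJ j θ‖ ^ 2 ≤ 1 := by
        have := norm_nonneg (D.FJ j θ)
        nlinarith
      rw [← Complex.normSq_eq_norm_sq, Complex.normSq_apply] at h3 ⊢
      simp only [Complex.sub_re, Complex.sub_im, Complex.one_re, Complex.one_im]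
      nlinarith
    have h4 : 0 ≤ (‖D.FJ j θ - 1‖ - t) ^ 2 := sq_nonneg _
    have h5 : ‖D.FJ j θ - 1‖ * (2 * t) ≤ 2 * (1 - (D.FJ j θ).re) + t ^ 2 := by nlinarith
    have h6 : (1 - (D.FJ j θ).re) / t + t / 2 =
        (2 * (1 - (D.FJ j θ).re) + t ^ 2) / (2 * t) := by
      field_simp
    rw [h6, le_div_iff₀ (by positivity)]
    exact h5
  have hint : ∫ θ, ((1 - (D.FJ j θ).re) / t + t / 2) ∂haar =
      (1 - Real.exp (-((4 : ℝ) ^ (j + 1))⁻¹)) / t + t / 2 := by
    have hI1 : Integrable (fun θ => 1 - (D.FJ j θ).re) haar := (integrable_const 1).sub hRe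
    have hI2 : Integrable (fun θ => (1 - (D.FJ j θ).re) / t) haar := hI1.div_const t
    rw [integral_add hI2 (integrable_const _),
      integral_div, integral_sub (integrable_const 1) hRe]
    have h7 : ∫ θ, (D.FJ j θ).re ∂haar = Real.exp (-((4 : ℝ) ^ (j + 1))⁻¹) := by
      have h8 := integral_re hFi
      have h9 := D.integral_FJ j
      rw [← Complex.ofReal_exp] at h9
      have h10 : ∫ θ, (D.FJ j θ).re ∂haar = (∫ θ, D.FJ j θ ∂haar).re := h8
      rw [h10, h9, Complex.ofReal_re]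
    rw [h7]
    simp
  calc ∫ θ, ‖D.FJ j θ - 1‖ ∂haar ≤ ∫ θ, ((1 - (D.FJ j θ).re) / t + t / 2) ∂haar := by
        refine integral_mono ?_ ?_ hpt
        · exact (hFi.sub (integrable_const 1)).norm
        · exact (((integrable_const 1).sub hRe).div_const t).add (integrable_const _)
    _ = (1 - Real.exp (-((4 : ℝ) ^ (j + 1))⁻¹)) / t + t / 2 := hint
    _ ≤ t := by
        have h1 : 1 - Real.exp (-((4 : ℝ) ^ (j + 1))⁻¹) ≤ ((4 : ℝ) ^ (j + 1))⁻¹ := by
          have := Real.add_one_le_exp (-((4 : ℝ) ^ (j + 1))⁻¹)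
          linarith
        have h2 : ((4 : ℝ) ^ (j + 1))⁻¹ = t ^ 2 / 4 := by
          rw [ht, ← pow_mul, mul_comm j 2, pow_mul, pow_succ]
          norm_num
          rw [one_div, inv_pow]
          ring
        have h3 : (1 - Real.exp (-((4 : ℝ) ^ (j + 1))⁻¹)) / t ≤ t / 4 := by
          rw [div_le_iff₀ htp]
          rw [h2] at h1 ⊢
          nlinarith
        linarith

lemma ae_summable : ∀ᵐ θ ∂haar, Summable fun j => ‖D.FJ j θ - 1‖ := by
  have hi : ∀ j, Integrable (fun θ => D.FJ j θ - 1) haar := fun j =>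
    (Integrable.of_bound (D.meas_FJ j).aestronglyMeasurable 1
      (Eventually.of_forall (D.FJ_le j))).sub (integrable_const 1)
  have h1 : ∫⁻ θ, ∑' j, ‖D.FJ j θ - 1‖ₑ ∂haar ≠ ⊤ := by
    rw [lintegral_tsum fun j => ((D.meas_FJ j).sub_const 1).enorm.aemeasurable]
    have h2 : ∀ j, ∫⁻ θ, ‖D.FJ j θ - 1‖ₑ ∂haar ≤ ENNReal.ofReal ((1 / 2) ^ j) := by
      intro j
      rw [← ofReal_integral_norm_eq_lintegral_enorm (hi j)]
      exact ENNReal.ofReal_le_ofReal (D.integral_FJ_sub j)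
    refine ne_top_of_le_ne_top ?_ (ENNReal.tsum_le_tsum h2)
    rw [← ENNReal.ofReal_tsum_of_nonneg (fun j => by positivity)
      (summable_geometric_of_lt_one (by norm_num) (by norm_num))]
    exact ENNReal.ofReal_ne_top
  filter_upwards [ae_lt_top' (AEMeasurable.tsum fun j =>
    ((D.meas_FJ j).sub_const 1).enorm.aemeasurable) h1] with θ hθ
  have h3 : ∑' j, ENNReal.ofReal ‖D.FJ j θ - 1‖ ≠ ⊤ := by
    simp only [ofReal_norm]
    exact hθ.ne
  exact (ENNReal.tsum_coe_ne_top_iff_summable_coe.1 h3).congr fun j => by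
    simp

lemma ae_limit : ∀ᵐ θ ∂haar, ∃ x : ℂ, x ≠ 0 ∧ Tendsto (fun J => D.fJ J θ) atTop (𝓝 x) := by
  filter_upwards [D.ae_summable] with θ hθ
  have h1 : (fun j => 1 + (D.FJ j θ - 1)) = fun j => D.FJ j θ := by
    funext j; ring
  have hm : Multipliable fun j => 1 + (D.FJ j θ - 1) := multipliable_one_add_of_summable hθ
  have hne : ∏' j, (1 + (D.FJ j θ - 1)) ≠ 0 := by
    refine tprod_one_add_ne_zero_of_summable (fun j => ?_) hθ
    rw [add_sub_cancel]
    exact D.FJ_ne j θ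
  refine ⟨_, hne, ?_⟩
  have h2 := hm.hasProd.tendsto_prod_nat
  simp only [add_sub_cancel] at h2 ⊢
  refine h2.congr fun J => ?_
  rw [D.fJ_eq]

/-- Gluing theorem. -/
theorem glue : ∃ f : TI → ℂ, HInf f ∧ (∀ᵐ θ ∂haar, f θ ≠ 0) ∧
    ∀ (r : ℕ → Set.Ico (0 : ℝ) 1) (J : ℕ), ∀ᵐ θ ∂haar,
      ‖radial f r θ‖ ≤ ∏ n ∈ Finset.Ico (D.s J) (D.s (J + 1)), ‖D.g n (r n * e (θ n))‖ := by
  classical
  obtain ⟨f₀, hf₀m, hf₀⟩ := measurable_limit_of_tendsto_metrizable_ae (μ := haar)
    (L := atTop) (f := D.fJ) (fun J => (D.meas_fJ J).aemeasurable)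
    (D.ae_limit.mono fun θ ⟨x, _, hx⟩ => ⟨x, hx⟩)
  let f : TI → ℂ := fun θ => if ‖f₀ θ‖ ≤ 1 then f₀ θ else 0
  have hfm : Measurable f :=
    Measurable.ite (measurableSet_le hf₀m.norm measurable_const) hf₀m measurable_const
  have hfb : ∀ θ, ‖f θ‖ ≤ 1 := by
    intro θ
    by_cases h : ‖f₀ θ‖ ≤ 1
    · simp [f, h]
    · simp [f, h]
  have hlim : ∀ᵐ θ ∂haar, Tendsto (fun J => D.fJ J θ) atTop (𝓝 (f θ)) := by
    filter_upwards [hf₀] with θ hθ
    have h1 : ‖f₀ θ‖ ≤ 1 := le_of_tendsto' hθ.norm fun J => D.fJ_le J θ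
    have h2 : f θ = f₀ θ := by simp [f, h1]
    rw [h2]
    exact hθ
  refine ⟨f, ⟨hfm, ⟨1, hfb⟩, ?_⟩, ?_, ?_⟩
  · rintro α ⟨n₀, hn₀⟩
    have hpm : Measurable (fun θ : TI => α.prod (fun n k => e (θ n) ^ (-k))) := by
      unfold Finsupp.prod
      refine Finset.measurable_fun_prod _ fun n _ => ?_
      exact (measurable_e.comp (measurable_pi_apply n)).pow_const _
    have hpn : ∀ θ : TI, ‖α.prod (fun n k => e (θ n) ^ (-k))‖ = 1 := by
      intro θ
      unfold Finsupp.prod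
      rw [norm_prod]
      exact Finset.prod_eq_one fun n _ => by rw [norm_zpow, e_norm, one_zpow]
    have ht : Tendsto (fun J => ∫ θ, D.fJ J θ * α.prod (fun n k => e (θ n) ^ (-k)) ∂haar) atTop
        (𝓝 (fcoef f α)) := by
      refine tendsto_integral_of_dominated_convergence (fun _ => (1 : ℝ))
        (fun J => ((D.meas_fJ J).mul hpm).aestronglyMeasurable) (integrable_const _)
        (fun J => Eventually.of_forall fun θ => ?_) ?_
      · rw [norm_mul, hpn, mul_one]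
        exact D.fJ_le J θ
      · filter_upwards [hlim] with θ hθ
        exact hθ.mul_const _
    have hz : ∀ᶠ J in atTop, ∫ θ, D.fJ J θ * α.prod (fun n k => e (θ n) ^ (-k)) ∂haar = 0 := by
      obtain ⟨K, hK⟩ : ∃ K, α.support ⊆ Finset.range K :=
        ⟨α.support.sup id + 1, fun n hn => Finset.mem_range.2
          (Nat.lt_succ_of_le (Finset.le_sup (f := id) hn))⟩
      filter_upwards [eventually_ge_atTop K] with J hJ
      have hsub : α.support ⊆ Finset.range (D.s J) := by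
        refine hK.trans (Finset.range_subset_range.2 ?_)
        exact hJ.trans (D.mono.id_le J)
      have h1 : ∀ θ : TI, D.fJ J θ * α.prod (fun n k => e (θ n) ^ (-k)) =
          ∏ n ∈ Finset.range (D.s J), (D.g n (e (θ n)) * e (θ n) ^ (-(α n))) := by
        intro θ
        rw [Finsupp.prod_of_support_subset α hsub _ (fun n _ => by simp), Finset.prod_mul_distrib]
        rfl
      simp only [h1]
      unfold haar
      rw [integral_prod_inf (fun _ => arc) _ (fun n t => D.g n (e t) * e t ^ (-(α n)))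
        (fun n => (D.meas_ge n).mul (measurable_e.pow_const _))]
      refine Finset.prod_eq_zero (i := n₀) (hsub ?_) ?_
      · rw [Finsupp.mem_support_iff]
        exact ne_of_lt hn₀
      · obtain ⟨k, hk⟩ := Int.eq_ofNat_of_zero_le (show 0 ≤ -(α n₀) by omega)
        have hk0 : k ≠ 0 := by
          intro h
          rw [h] at hk
          simp at hk
          omega
        have h2 : ∀ t : T, D.g n₀ (e t) * e t ^ (-(α n₀)) =
            (fun w => D.g n₀ w * w ^ k) (e t) := by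
          intro t
          rw [hk]
          simp
        simp only [h2]
        have hG : DiffContOnCl ℂ (fun w => D.g n₀ w * w ^ k) (ball 0 1) :=
          ⟨(D.diff n₀).differentiableOn.mul (by fun_prop),
            (D.diff n₀).continuousOn.mul (by fun_prop)⟩
        refine (integral_analytic hG).trans ?_
        simp [hk0]
    exact tendsto_nhds_unique ht (tendsto_const_nhds.congr' (hz.mono fun J hJ => hJ.symm))
  · filter_upwards [hlim, D.ae_limit] with θ h1 h2
    obtain ⟨x, hx, hx2⟩ := h2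
    rw [tendsto_nhds_unique h1 hx2]
    exact hx
  · intro r J
    have h1 := (mp_sub (poisI r)).quasiMeasurePreserving.ae hlim
    filter_upwards [Measure.ae_ae_of_ae_prod h1] with θ hθ
    have hms : Measurable (fun φ : TI => θ - φ) :=
      measurable_subTI.comp (measurable_const.prodMk measurable_id)
    have ht : Tendsto (fun J' => ∫ φ, D.fJ J' (θ - φ) ∂(poisI r)) atTop
        (𝓝 (radial f r θ)) := by
      refine tendsto_integral_of_dominated_convergence (fun _ => (1 : ℝ))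
        (fun J' => ((D.meas_fJ J').comp hms).aestronglyMeasurable)
        (integrable_const _) (fun J' => Eventually.of_forall fun φ => D.fJ_le J' _) hθ
    have h2 : ∀ J', ∫ φ, D.fJ J' (θ - φ) ∂(poisI r) =
        ∏ n ∈ Finset.range (D.s J'), D.g n (r n * e (θ n)) := by
      intro J'
      unfold fJ poisI
      have := integral_prod_inf (fun n => pois (r n)) (Finset.range (D.s J'))
        (fun n t => D.g n (e (θ n - t)))
        (fun n => (D.meas_ge n).comp (measurable_const.sub measurable_id))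
      refine Eq.trans ?_ (this.trans ?_)
      · rfl
      · exact Finset.prod_congr rfl fun n _ => integral_pois (D.diff n) (r n) (θ n)
    have hle1 : ∀ n, ‖D.g n (r n * e (θ n))‖ ≤ 1 := by
      intro n
      refine D.bd n _ ?_
      rw [norm_mul, e_norm, mul_one, Complex.norm_real, Real.norm_eq_abs,
        abs_of_nonneg (r n).2.1]
      exact (r n).2.2.le
    refine le_of_tendsto ht.norm ?_
    filter_upwards [eventually_ge_atTop (J + 1)] with J' hJ'
    rw [h2, norm_prod]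
    refine Finset.prod_le_prod_of_subset_of_le_one ?_ (fun n _ => norm_nonneg _)
      (fun n _ _ => hle1 n)
    intro n hn
    rw [Finset.mem_Ico] at hn
    exact Finset.mem_range.2 (hn.2.trans_le (D.mono.monotone hJ'))

end Data

section Kernel

/-- real part of `(1+u)/(1-u)` -/
noncomputable def kk (u : ℂ) : ℝ := ((1 + u) / (1 - u)).re

lemma kk_eq (u : ℂ) : kk u = (1 - ‖u‖ ^ 2) / ‖1 - u‖ ^ 2 := by
  unfold kk
  rw [Complex.div_re, Complex.normSq_eq_norm_sq (1 - u), ← add_div]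
  congr 1
  rw [← Complex.normSq_eq_norm_sq, Complex.normSq_apply]
  simp only [Complex.add_re, Complex.sub_re, Complex.one_re, Complex.add_im, Complex.sub_im,
    Complex.one_im]
  ring

lemma kk_nonneg {u : ℂ} (hu : ‖u‖ ≤ 1) : 0 ≤ kk u := by
  rw [kk_eq]
  apply div_nonneg _ (by positivity)
  have := norm_nonneg u
  nlinarith

/-- the building blocks -/
noncomputable def gfun (b ρ : ℝ) (d : ℕ) (w : ℂ) : ℂ :=
  Complex.exp (-b * ((1 + ρ * w ^ d) / (1 - ρ * w ^ d)))

lemma norm_gfun (b ρ : ℝ) (d : ℕ) (w : ℂ) :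
    ‖gfun b ρ d w‖ = Real.exp (-(b * kk (ρ * w ^ d))) := by
  unfold gfun kk
  rw [Complex.norm_exp]
  congr 1
  simp [Complex.mul_re]

lemma norm_arg_le {ρ : ℝ} (h0 : 0 ≤ ρ) {d : ℕ} {w : ℂ} (hw : ‖w‖ ≤ 1) :
    ‖(ρ : ℂ) * w ^ d‖ ≤ ρ := by
  rw [norm_mul, norm_pow, Complex.norm_real, Real.norm_eq_abs, abs_of_nonneg h0]
  exact mul_le_of_le_one_right h0 (pow_le_one₀ (norm_nonneg w) hw)

lemma gfun_le {b ρ : ℝ} (hb : 0 ≤ b) (h0 : 0 ≤ ρ) (h1 : ρ < 1) (d : ℕ) {w : ℂ} (hw : ‖w‖ ≤ 1) :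
    ‖gfun b ρ d w‖ ≤ 1 := by
  rw [norm_gfun, Real.exp_le_one_iff, neg_nonpos]
  exact mul_nonneg hb (kk_nonneg ((norm_arg_le h0 hw).trans h1.le))

lemma gfun_diff (b : ℝ) {ρ : ℝ} (h0 : 0 ≤ ρ) (h1 : ρ < 1) (d : ℕ) :
    DiffContOnCl ℂ (gfun b ρ d) (ball 0 1) := by
  have hne : ∀ w : ℂ, ‖w‖ ≤ 1 → 1 - (ρ : ℂ) * w ^ d ≠ 0 := by
    intro w hw h
    have h2 := norm_arg_le (d := d) h0 hw
    rw [← sub_eq_zero.1 h] at h2
    rw [norm_one] at h2
    linarith
  unfold gfun
  refine ⟨?_, ?_⟩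
  · intro w hw
    have hw' : ‖w‖ ≤ 1 := by
      rw [mem_ball_zero_iff] at hw
      exact hw.le
    have := hne w hw'
    apply DifferentiableAt.differentiableWithinAt
    fun_prop (disch := assumption)
  · rw [closure_ball (0 : ℂ) one_ne_zero]
    intro w hw
    rw [mem_closedBall_zero_iff] at hw
    have := hne w hw
    apply ContinuousAt.continuousWithinAt
    have h2 : ContinuousAt (fun w : ℂ => (1 + (ρ : ℂ) * w ^ d) / (1 - (ρ : ℂ) * w ^ d)) w :=
      ContinuousAt.div (by fun_prop) (by fun_prop) this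
    exact Complex.continuous_exp.continuousAt.comp (h2.const_mul _)

lemma gfun_zero (b ρ : ℝ) {d : ℕ} (hd : d ≠ 0) : gfun b ρ d 0 = Complex.exp (-b : ℝ) := by
  unfold gfun
  simp [hd]

lemma norm_one_sub_e (θ : T) : ‖1 - e θ‖ ≤ ‖θ‖ := by
  obtain ⟨x, rfl⟩ := QuotientAddGroup.mk_surjective θ
  set y : ℝ := x - round ((2 * π)⁻¹ * x) * (2 * π) with hy
  have h1 : ((y : ℝ) : T) = (x : T) := by
    rw [hy, AddCircle.coe_sub]
    have : ((round ((2 * π)⁻¹ * x) * (2 * π) : ℝ) : T) = 0 := by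
      have h2 : ((round ((2 * π)⁻¹ * x) * (2 * π) : ℝ) : T) =
          (round ((2 * π)⁻¹ * x)) • ((2 * π : ℝ) : T) := by
        rw [← AddCircle.coe_zsmul, zsmul_eq_mul]
      rw [h2, AddCircle.coe_period, smul_zero]
    rw [this, sub_zero]
  have h2 : ‖((x : ℝ) : T)‖ = |y| := AddCircle.norm_eq (2 * π)
  change ‖1 - e ((x : ℝ) : T)‖ ≤ ‖((x : ℝ) : T)‖
  rw [h2, ← h1]
  have h3 : e ((y : ℝ) : T) = Complex.exp (Complex.I * y) := by
    unfold e
    rw [AddCircle.toCircle_apply_mk, div_self (by positivity), one_mul, Circle.coe_exp, mul_comm]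
  rw [h3, norm_sub_rev]
  exact Real.norm_exp_I_mul_ofReal_sub_one_le

lemma kk_lower (m : ℕ) (hm : 1 ≤ m) (θ : T) (hθ : ‖θ‖ ≤ (1 / 2) ^ m) :
    (2 : ℝ) ^ m / 4 ≤ kk (((1 - (1 / 2) ^ m : ℝ) : ℂ) * e θ) := by
  set q : ℝ := (1 / 2) ^ m with hq
  have hq0 : 0 < q := by positivity
  have hq1 : q ≤ 1 / 2 := by
    rw [hq]
    calc ((1 : ℝ) / 2) ^ m ≤ (1 / 2) ^ 1 :=
        pow_le_pow_of_le_one (by norm_num) (by norm_num) hm
      _ = 1 / 2 := by norm_num
  have h2q : (2 : ℝ) ^ m = 1 / q := by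
    rw [hq, one_div_pow, one_div_one_div]
  rw [kk_eq, h2q]
  have hn : ‖((1 - q : ℝ) : ℂ) * e θ‖ = 1 - q := by
    rw [norm_mul, e_norm, mul_one, Complex.norm_real, Real.norm_eq_abs, abs_of_nonneg (by linarith)]
  have hd : ‖1 - ((1 - q : ℝ) : ℂ) * e θ‖ ≤ 2 * q := by
    have e1 : 1 - ((1 - q : ℝ) : ℂ) * e θ = (q : ℂ) + ((1 - q : ℝ) : ℂ) * (1 - e θ) := by
      push_cast; ring
    rw [e1]
    refine (norm_add_le _ _).trans ?_
    rw [norm_mul, Complex.norm_real, Complex.norm_real, Real.norm_eq_abs, Real.norm_eq_abs,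
      abs_of_pos hq0, abs_of_nonneg (by linarith : (0 : ℝ) ≤ 1 - q)]
    have h5 := norm_one_sub_e θ
    nlinarith [norm_nonneg (1 - e θ)]
  have hd0 : 0 < ‖1 - ((1 - q : ℝ) : ℂ) * e θ‖ := by
    rw [norm_pos_iff]
    intro h
    have := congrArg norm (sub_eq_zero.1 h)
    rw [hn, norm_one] at this
    linarith
  rw [hn, div_div, div_le_div_iff₀ (by positivity) (by positivity)]
  have h6 : ‖1 - ((1 - q : ℝ) : ℂ) * e θ‖ ^ 2 ≤ (2 * q) ^ 2 :=
    pow_le_pow_left₀ hd0.le hd 2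
  nlinarith

/-- the simple function below the maximal function -/
noncomputable def Hs (M : ℕ) (θ : T) : ℝ :=
  (∑ m ∈ Finset.Icc 1 M, (closedBall (0 : T) ((1 / 2) ^ m)).indicator (fun _ => (2 : ℝ) ^ m) θ) / 8

lemma measurable_Hs (M : ℕ) : Measurable (Hs M) :=
  (Finset.measurable_fun_sum _ fun _ _ =>
    measurable_const.indicator measurableSet_closedBall).div_const _

lemma Hs_nonneg (M : ℕ) (θ : T) : 0 ≤ Hs M θ := by
  unfold Hs
  apply div_nonneg _ (by norm_num)
  exact Finset.sum_nonneg fun m _ => Set.indicator_nonneg (fun _ _ => by positivity) _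

lemma sum_two_pow (j : ℕ) : ∑ m ∈ Finset.Icc 1 j, (2 : ℝ) ^ m ≤ 2 ^ (j + 1) := by
  induction j with
  | zero => simp
  | succ j ih =>
    rw [Finset.sum_Icc_succ_top (by omega), pow_succ 2 (j + 1)]
    linarith

lemma Hs_le (M : ℕ) (θ : T) : Hs M θ ≤ 2 ^ M := by
  unfold Hs
  have h1 : ∑ m ∈ Finset.Icc 1 M, (closedBall (0 : T) ((1 / 2) ^ m)).indicator
      (fun _ => (2 : ℝ) ^ m) θ ≤ ∑ m ∈ Finset.Icc 1 M, (2 : ℝ) ^ m := by
    refine Finset.sum_le_sum fun m _ => ?_
    exact Set.indicator_le_self' (fun _ _ => by positivity) _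
  have h2 := sum_two_pow M
  rw [div_le_iff₀ (by norm_num)]
  have : (2 : ℝ) ^ (M + 1) = 2 * 2 ^ M := by ring
  have h3 : (0 : ℝ) < 2 ^ M := by positivity
  linarith

lemma exists_kk (M : ℕ) (hM : 1 ≤ M) (θ : T) :
    ∃ m ∈ Finset.Icc 1 M, Hs M θ ≤ kk (((1 - (1 / 2) ^ m : ℝ) : ℂ) * e θ) := by
  classical
  by_cases hS : ((Finset.Icc 1 M).filter fun m => ‖θ‖ ≤ (1 / 2) ^ m).Nonempty
  · obtain ⟨j, hj, hmax⟩ := Finset.exists_max_image _ id hS
    rw [Finset.mem_filter] at hj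
    refine ⟨j, hj.1, ?_⟩
    have hj1 := Finset.mem_Icc.1 hj.1
    refine le_trans ?_ (kk_lower j hj1.1 θ hj.2)
    unfold Hs
    have h1 : ∑ m ∈ Finset.Icc 1 M, (closedBall (0 : T) ((1 / 2) ^ m)).indicator
        (fun _ => (2 : ℝ) ^ m) θ ≤ ∑ m ∈ Finset.Icc 1 j, (2 : ℝ) ^ m := by
      have h2 : ∑ m ∈ Finset.Icc 1 M, (closedBall (0 : T) ((1 / 2) ^ m)).indicator
          (fun _ => (2 : ℝ) ^ m) θ =
          ∑ m ∈ (Finset.Icc 1 M).filter (fun m => ‖θ‖ ≤ (1 / 2) ^ m), (2 : ℝ) ^ m := by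
        rw [Finset.sum_filter]
        refine Finset.sum_congr rfl fun m _ => ?_
        rw [Set.indicator_apply]
        simp only [mem_closedBall_zero_iff]
      rw [h2]
      refine Finset.sum_le_sum_of_subset_of_nonneg (fun m hm => ?_) fun _ _ _ => by positivity
      have h3 : m ≤ j := hmax m hm
      rw [Finset.mem_filter, Finset.mem_Icc] at hm
      exact Finset.mem_Icc.2 ⟨hm.1.1, h3⟩
    have h4 := sum_two_pow j
    have h5 : (2 : ℝ) ^ (j + 1) = 2 * 2 ^ j := by ring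
    rw [div_le_div_iff₀ (by norm_num) (by norm_num)]
    linarith
  · refine ⟨1, Finset.mem_Icc.2 ⟨le_rfl, hM⟩, ?_⟩
    have h1 : Hs M θ = 0 := by
      unfold Hs
      rw [Finset.sum_eq_zero, zero_div]
      intro m hm
      rw [Set.indicator_of_notMem]
      intro h
      exact hS ⟨m, Finset.mem_filter.2 ⟨hm, by simpa using h⟩⟩
    rw [h1]
    apply kk_nonneg
    rw [norm_mul, e_norm, mul_one, Complex.norm_real]
    norm_num

lemma arc_ball (m : ℕ) : arc.real (closedBall (0 : T) ((1 / 2) ^ m)) = (1 / 2) ^ m / π := by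
  have h1 := AddCircle.volume_closedBall (T := 2 * π) (x := 0) ((1 / 2) ^ m)
  rw [AddCircle.volume_eq_smul_haarAddCircle, Measure.smul_apply, smul_eq_mul] at h1
  have h2 : ((1 : ℝ) / 2) ^ m ≤ 1 := pow_le_one₀ (by norm_num) (by norm_num)
  have h3 : min (2 * π) (2 * (1 / 2) ^ m) = 2 * (1 / 2 : ℝ) ^ m := by
    apply min_eq_right
    have := Real.pi_gt_three
    linarith
  rw [h3] at h1
  have h4 := congrArg ENNReal.toReal h1
  rw [ENNReal.toReal_mul, ENNReal.toReal_ofReal (by positivity),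
    ENNReal.toReal_ofReal (by positivity)] at h4
  have h5 : arc.real (closedBall (0 : T) ((1 / 2) ^ m)) =
      (AddCircle.haarAddCircle (closedBall (0 : T) ((1 / 2) ^ m))).toReal := rfl
  rw [h5, eq_div_iff (by positivity)]
  linarith

lemma integral_Hs (M : ℕ) : ∫ θ, Hs M θ ∂arc = M / (8 * π) := by
  unfold Hs
  rw [integral_div, integral_finsetSum]
  · have h1 : ∀ m ∈ Finset.Icc 1 M, ∫ θ, (closedBall (0 : T) ((1 / 2) ^ m)).indicator
        (fun _ => (2 : ℝ) ^ m) θ ∂arc = 1 / π := by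
      intro m _
      rw [integral_indicator_const _ measurableSet_closedBall, arc_ball, smul_eq_mul]
      have : ((1 : ℝ) / 2) ^ m * 2 ^ m = 1 := by
        rw [← mul_pow]
        norm_num
      rw [div_mul_eq_mul_div, this]
    rw [Finset.sum_congr rfl h1]
    simp
    field_simp
  · intro m _
    exact (integrable_const _).indicator measurableSet_closedBall

end Kernel

section Block

lemma mp_eval (n : ℕ) : MeasurePreserving (Function.eval n) haar arc :=
  measurePreserving_eval_infinitePi (fun _ : ℕ => arc) n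

lemma mp_nsmul {d : ℕ} (hd : d ≠ 0) : MeasurePreserving (fun t : T => d • t) arc arc := by
  unfold arc
  have h := Measure.measurePreserving_zsmul (AddCircle.haarAddCircle (T := 2 * π)) (n := (d : ℤ))
    (by exact_mod_cast hd)
  simpa using h

lemma block_prob (M : ℕ) (hM : 1 ≤ M) (β K ε : ℝ) (hβ : 0 < β) (hK : 2 * K ≤ β * (M / (8 * π)))
    (hε : 0 < ε) : ∃ N : ℕ, 1 ≤ N ∧ ∀ (d : ℕ → ℕ) (_ : ∀ n, d n ≠ 0) (s : ℕ),
      haar {θ | ∑ n ∈ Finset.Ico s (s + N), (β / N) * Hs M (d n • θ n) < K} ≤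
        ENNReal.ofReal ε := by
  set μ0 : ℝ := M / (8 * π) with hμ0
  have hμ0p : 0 < μ0 := by
    have : (0 : ℝ) < M := by exact_mod_cast hM
    positivity
  obtain ⟨N, hN⟩ := exists_nat_gt (4 * (2 ^ M) ^ 2 / (μ0 ^ 2 * ε))
  have hN0 : (0 : ℝ) < N := lt_of_le_of_lt (by positivity) hN
  have hN1 : 1 ≤ N := by exact_mod_cast hN0
  refine ⟨N, hN1, fun d hd s => ?_⟩
  set Y : ℕ → TI → ℝ := fun n θ => Hs M (d n • θ n) with hY
  have hYm : ∀ n, Measurable (Y n) := fun n =>
    (measurable_Hs M).comp ((mp_nsmul (hd n)).measurable.comp (measurable_pi_apply n))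
  have hYb : ∀ n θ, ‖Y n θ‖ ≤ 2 ^ M := fun n θ => by
    rw [Real.norm_eq_abs, abs_of_nonneg (Hs_nonneg _ _)]
    exact Hs_le _ _
  have hYL : ∀ n, MemLp (Y n) 2 haar := fun n =>
    MemLp.of_bound (hYm n).aestronglyMeasurable (2 ^ M) (Eventually.of_forall (hYb n))
  have hYi : ∀ n, Integrable (Y n) haar := fun n => (hYL n).integrable (by norm_num)
  have hYE : ∀ n, ∫ θ, Y n θ ∂haar = μ0 := by
    intro n
    have hmp : MeasurePreserving (fun θ : TI => d n • θ n) haar arc :=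
      (mp_nsmul (hd n)).comp (mp_eval n)
    rw [hμ0, ← integral_Hs M, ← hmp.map_eq, integral_map hmp.measurable.aemeasurable
      (measurable_Hs M).aestronglyMeasurable]
  have hind : iIndepFun Y haar :=
    iIndepFun_infinitePi (X := fun n t => Hs M (d n • t))
      (fun n => (measurable_Hs M).comp (mp_nsmul (hd n)).measurable)
  have hvar : ∀ n, Var[Y n; haar] ≤ (2 ^ M) ^ 2 := by
    intro n
    refine (variance_le_expectation_sq (hYm n).aestronglyMeasurable).trans ?_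
    have h1 : ∫ θ, (Y n ^ 2) θ ∂haar ≤ ∫ _θ, ((2 : ℝ) ^ M) ^ 2 ∂haar := by
      refine integral_mono_of_nonneg (Eventually.of_forall fun θ => ?_) (integrable_const _)
        (Eventually.of_forall fun θ => ?_)
      · exact sq_nonneg _
      · have h2 : 0 ≤ Y n θ := Hs_nonneg _ _
        have h3 : Y n θ ≤ 2 ^ M := Hs_le _ _
        exact pow_le_pow_left₀ h2 h3 2
    simpa using h1
  set X : TI → ℝ := ∑ n ∈ Finset.Ico s (s + N), Y n with hX
  have hXL : MemLp X 2 haar := memLp_finsetSum' _ fun n _ => hYL n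
  have hXE : ∫ θ, X θ ∂haar = N * μ0 := by
    rw [hX]
    simp only [Finset.sum_apply]
    rw [integral_finsetSum _ fun n _ => hYi n]
    simp [hYE]
  have hXV : Var[X; haar] ≤ N * (2 ^ M) ^ 2 := by
    rw [hX, IndepFun.variance_sum (fun n _ => hYL n) fun i _ j _ hij => hind.indepFun hij]
    refine (Finset.sum_le_sum fun n _ => hvar n).trans ?_
    simp
  have hcheb := meas_ge_le_variance_div_sq hXL (c := N * μ0 / 2) (by positivity)
  refine le_trans (measure_mono ?_) (hcheb.trans (ENNReal.ofReal_le_ofReal ?_))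
  · intro θ hθ
    have h1 : (β / N) * X θ < K := by
      have : ∑ n ∈ Finset.Ico s (s + N), (β / N) * Hs M (d n • θ n) = (β / N) * X θ := by
        rw [hX, Finset.sum_apply, Finset.mul_sum]
      rw [← this]
      exact hθ
    change N * μ0 / 2 ≤ |X θ - ∫ θ, X θ ∂haar|
    rw [hXE]
    have h2 : X θ < N * μ0 / 2 := by
      rw [div_mul_eq_mul_div, div_lt_iff₀ hN0] at h1
      by_contra hcon
      rw [not_lt] at hcon
      have h3 : β * (N * μ0 / 2) ≤ β * X θ := mul_le_mul_of_nonneg_left hcon hβ.le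
      nlinarith
    rw [abs_of_nonpos (by nlinarith [mul_pos hN0 hμ0p])]
    linarith
  · rw [div_le_iff₀ (by positivity)]
    refine hXV.trans ?_
    rw [div_lt_iff₀ (by positivity)] at hN
    have : ε * (N * μ0 / 2) ^ 2 = N * (N * (μ0 ^ 2 * ε)) / 4 := by ring
    rw [this, le_div_iff₀ (by norm_num)]
    have := mul_lt_mul_of_pos_left hN hN0
    nlinarith

/-- effective radii -/
noncomputable def eff (M m : ℕ) : ℝ := (1 - (1 / 2) ^ m) / (1 - (1 / 2) ^ (M + 1))

lemma rho_pos (M : ℕ) : (0 : ℝ) < 1 - (1 / 2) ^ (M + 1) := by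
  have : ((1 : ℝ) / 2) ^ (M + 1) < 1 := pow_lt_one₀ (by norm_num) (by norm_num) (by omega)
  linarith

lemma rho_lt (M : ℕ) : (1 : ℝ) - (1 / 2) ^ (M + 1) < 1 := by
  have : (0 : ℝ) < (1 / 2) ^ (M + 1) := by positivity
  linarith

lemma eff_pos {M m : ℕ} (hm : 1 ≤ m) : 0 < eff M m := by
  unfold eff
  refine div_pos ?_ (rho_pos M)
  have : ((1 : ℝ) / 2) ^ m < 1 := pow_lt_one₀ (by norm_num) (by norm_num) (by omega)
  linarith

lemma eff_lt {M m : ℕ} (hm : m ≤ M) : eff M m < 1 := by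
  unfold eff
  rw [div_lt_one (rho_pos M)]
  have : ((1 : ℝ) / 2) ^ (M + 1) < (1 / 2) ^ m :=
    pow_lt_pow_right_of_lt_one₀ (by norm_num) (by norm_num) (by omega)
  linarith

lemma eff_mono {M m m' : ℕ} (h : m ≤ m') : eff M m ≤ eff M m' := by
  unfold eff
  refine div_le_div_of_nonneg_right ?_ (rho_pos M).le
  have : ((1 : ℝ) / 2) ^ m' ≤ (1 / 2) ^ m :=
    pow_le_pow_of_le_one (by norm_num) (by norm_num) h
  linarith

lemma block (j : ℕ) : ∃ N M D : ℕ, 1 ≤ N ∧ 1 ≤ M ∧ 1 ≤ D ∧ eff M M ^ D ≤ eff M 1 ∧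
    ∀ (d : ℕ → ℕ) (_ : ∀ n, d n ≠ 0) (s : ℕ),
      haar {θ | ∑ n ∈ Finset.Ico s (s + N),
        (((4 : ℝ) ^ (j + 1))⁻¹ / N) * Hs M (d n • θ n) < j} ≤ ENNReal.ofReal ((1 / 2) ^ j) := by
  obtain ⟨M, hM⟩ := exists_nat_gt (2 * j * (8 * π) * 4 ^ (j + 1))
  have hM1 : 1 ≤ M := by
    have : (0 : ℝ) < M := lt_of_le_of_lt (by positivity) hM
    exact_mod_cast this
  obtain ⟨N, hN, hp⟩ := block_prob M hM1 (((4 : ℝ) ^ (j + 1))⁻¹) j ((1 / 2) ^ j) (by positivity)
    (by
      rw [inv_mul_eq_div, le_div_iff₀ (by positivity), le_div_iff₀ (by positivity)]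
      nlinarith) (by positivity)
  obtain ⟨n, hn⟩ := exists_pow_lt_of_lt_one (eff_pos (M := M) le_rfl) (eff_lt (M := M) le_rfl)
  refine ⟨N, M, n + 1, hN, hM1, by omega, ?_, hp⟩
  rw [pow_succ]
  exact (mul_le_of_le_one_right (pow_nonneg (eff_pos hM1).le _) (eff_lt le_rfl).le).trans hn.le

lemma exists_t (τ : ℕ → ℝ) (hτ : ∀ i, τ i < 1) : ∃ t : ℕ → Set.Ico (0 : ℝ) 1, Monotone t ∧
    (∀ i, τ i ≤ t i) ∧ Tendsto (fun i => (t i : ℝ)) atTop (𝓝 1) := by
  let a : ℕ → ℝ := fun i => max (τ i) (1 - 1 / ((i : ℝ) + 1))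
  have ha1 : ∀ i, a i < 1 := by
    intro i
    refine max_lt (hτ i) ?_
    have : (0 : ℝ) < 1 / ((i : ℝ) + 1) := by positivity
    linarith
  have ha0 : ∀ i, 0 ≤ a i := by
    intro i
    refine le_max_of_le_right ?_
    rw [sub_nonneg, div_le_one (by positivity)]
    have : (0 : ℝ) ≤ i := Nat.cast_nonneg i
    linarith
  let t : ℕ → ℝ := fun i => Nat.rec (a 0) (fun k x => max x (a (k + 1))) i
  have ht0 : t 0 = a 0 := rfl
  have hts : ∀ k, t (k + 1) = max (t k) (a (k + 1)) := fun k => rfl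
  have hta : ∀ k, a k ≤ t k := by
    intro k
    cases k with
    | zero => exact le_rfl
    | succ k => rw [hts]; exact le_max_right _ _
  have ht1 : ∀ k, t k < 1 := by
    intro k
    induction k with
    | zero => exact ha1 0
    | succ k ih => rw [hts]; exact max_lt ih (ha1 _)
  have htm : Monotone t := monotone_nat_of_le_succ fun k => by rw [hts]; exact le_max_left _ _
  refine ⟨fun i => ⟨t i, (ha0 i).trans (hta i), ht1 i⟩, fun i k h => htm h,
    fun i => (le_max_left _ _).trans (hta i), ?_⟩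
  refine tendsto_of_tendsto_of_tendsto_of_le_of_le (g := fun i : ℕ => 1 - 1 / ((i : ℝ) + 1))
    (h := fun _ => (1 : ℝ)) ?_ tendsto_const_nhds (fun i => (le_max_right _ _).trans (hta i))
    (fun i => (ht1 i).le)
  have := (tendsto_one_div_add_atTop_nhds_zero_nat (𝕜 := ℝ)).const_sub 1
  simpa using this

end Block

section Core

/-- **Core theorem.** -/
theorem core : ∃ f : TI → ℂ, HInf f ∧ (∀ᵐ θ ∂haar, f θ ≠ 0) ∧
    ∃ (s : ℕ → ℕ) (t : ℕ → Set.Ico (0 : ℝ) 1) (P : ℕ → Type) (_ : ∀ j, Finite (P j))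
      (_ : ∀ j, Nonempty (P j)) (R : ∀ j, P j → ℕ → Set.Ico (0 : ℝ) 1),
      StrictMono s ∧ Monotone t ∧ Tendsto (fun i => (t i : ℝ)) atTop (𝓝 1) ∧
      (∀ j p, Antitone (R j p)) ∧ (∀ j p n, n < s j → R j p n = t j) ∧
      (∀ j p n, R j p n ≤ t j) ∧ (∀ j p n, s (j + 1) ≤ n → (R j p n : ℝ) = 0) ∧
      ∀ᵐ θ ∂haar, ∀ᶠ j : ℕ in atTop, ∃ p : P j, ‖radial f (R j p) θ‖ ≤ Real.exp (-(j : ℝ)) := by
  classical
  choose N M D hN hM hD hDe hprob using block
  -- positions
  let s : ℕ → ℕ := fun j => ∑ i ∈ Finset.range j, N i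
  have hs0 : s 0 = 0 := rfl
  have hss : ∀ j, s (j + 1) = s j + N j := fun j => Finset.sum_range_succ _ _
  have hsm : StrictMono s := strictMono_nat_of_lt_succ fun j => by
    rw [hss]
    have := hN j
    omega
  have hex : ∀ n, ∃ j, n < s (j + 1) := fun n => ⟨n, (hsm.id_le n).trans_lt (hsm (Nat.lt_succ_self n))⟩
  let blk : ℕ → ℕ := fun n => Nat.find (hex n)
  have hblk : ∀ j n, s j ≤ n → n < s (j + 1) → blk n = j := by
    intro j n h1 h2
    refine le_antisymm (Nat.find_min' _ h2) ?_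
    by_contra hlt
    rw [not_le] at hlt
    have h3 : n < s (blk n + 1) := Nat.find_spec (hex n)
    have h4 : s (blk n + 1) ≤ s j := hsm.monotone hlt
    omega
  let dj : ℕ → ℕ → ℕ := fun j n => D j ^ (N j - 1 - (n - s j))
  have hdj : ∀ j n, dj j n ≠ 0 := fun j n => by
    have := hD j
    exact pow_ne_zero _ (by omega)
  let β : ℕ → ℝ := fun j => ((4 : ℝ) ^ (j + 1))⁻¹
  have hβ : ∀ j, 0 < β j := fun j => by positivity
  let ρ : ℕ → ℝ := fun j => 1 - (1 / 2) ^ (M j + 1)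
  let g : ℕ → ℂ → ℂ := fun n => gfun (β (blk n) / N (blk n)) (ρ (blk n)) (dj (blk n) n)
  have hb0 : ∀ j, 0 ≤ β j / N j := fun j => div_nonneg (hβ j).le (Nat.cast_nonneg _)
  let Dt : Data :=
    { g := g
      diff := fun n => gfun_diff _ (rho_pos _).le (rho_lt _) _
      bd := fun n w hw => gfun_le (hb0 _) (rho_pos _).le (rho_lt _) _ hw
      nz := fun n w _ => Complex.exp_ne_zero _
      s := s
      s0 := hs0
      mono := hsm
      mean := by
        intro j
        have h1 : ∀ n ∈ Finset.Ico (s j) (s (j + 1)), g n 0 =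
            Complex.exp (-(β j / N j) : ℝ) := by
          intro n hn
          rw [Finset.mem_Ico] at hn
          have h2 := hblk j n hn.1 hn.2
          change gfun _ _ _ 0 = _
          rw [gfun_zero _ _ (hdj _ _), h2]
        have h3 : (N j : ℂ) ≠ 0 := by
          have := hN j
          exact_mod_cast (by omega : N j ≠ 0)
        have h4 : (N j : ℂ) * ((-(β j / N j) : ℝ) : ℂ) = ((-(β j) : ℝ) : ℂ) := by
          push_cast
          field_simp
        rw [Finset.prod_congr rfl h1, Finset.prod_const, Nat.card_Ico, hss, Nat.add_sub_cancel_left,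
          ← Complex.exp_nat_mul, h4] }
  obtain ⟨f, hf, hf0, hfr⟩ := Dt.glue
  -- radii of the patterns
  let rad : ℕ → ℕ → ℕ → ℝ := fun j n m => (eff (M j) m) ^ (((dj j n : ℕ) : ℝ)⁻¹)
  have hrad0 : ∀ j n m, 1 ≤ m → 0 ≤ rad j n m := fun j n m hm =>
    Real.rpow_nonneg (eff_pos hm).le _
  have hradpow : ∀ j n m, 1 ≤ m → rad j n m ^ dj j n = eff (M j) m := fun j n m hm =>
    Real.rpow_inv_natCast_pow (eff_pos hm).le (hdj j n)
  have hrad1 : ∀ j n m, 1 ≤ m → m ≤ M j → rad j n m < 1 := by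
    intro j n m hm hm'
    by_contra hcon
    rw [not_lt] at hcon
    have h1 := one_le_pow₀ hcon (n := dj j n)
    rw [hradpow j n m hm] at h1
    exact absurd (eff_lt hm') (not_lt.2 h1)
  have hτ : ∀ j, ∃ τ : ℝ, τ < 1 ∧ ∀ n ∈ Finset.Ico (s j) (s (j + 1)), ∀ m ∈ Finset.Icc 1 (M j),
      rad j n m ≤ τ := by
    intro j
    have hne : (Finset.Ico (s j) (s (j + 1)) ×ˢ Finset.Icc 1 (M j)).Nonempty := by
      refine Finset.Nonempty.product ⟨s j, ?_⟩ ⟨1, ?_⟩
      · exact Finset.mem_Ico.2 ⟨le_rfl, hsm (Nat.lt_succ_self j)⟩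
      · exact Finset.mem_Icc.2 ⟨le_rfl, hM j⟩
    obtain ⟨⟨n0, m0⟩, h0, hmax⟩ := Finset.exists_max_image _
      (fun q : ℕ × ℕ => rad j q.1 q.2) hne
    rw [Finset.mem_product, Finset.mem_Icc] at h0
    exact ⟨rad j n0 m0, hrad1 j n0 m0 h0.2.1 h0.2.2,
      fun n hn m hm => hmax (n, m) (Finset.mem_product.2 ⟨hn, hm⟩)⟩
  choose τ hτ1 hτ2 using hτ
  obtain ⟨t, htm, htτ, ht1⟩ := exists_t τ hτ1
  let P : ℕ → Type := fun j => Fin (N j) → Fin (M j)
  have hPf : ∀ j, Finite (P j) := fun j => by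
    change Finite (Fin (N j) → Fin (M j))
    infer_instance
  have hPn : ∀ j, Nonempty (P j) := fun j => ⟨fun _ => ⟨0, hM j⟩⟩
  let mm : ∀ j, P j → ℕ → ℕ := fun j p n =>
    if h : n - s j < N j then (p ⟨n - s j, h⟩ : ℕ) + 1 else 1
  have hmm1 : ∀ j p n, 1 ≤ mm j p n := by
    intro j p n
    by_cases h : n - s j < N j
    · simp only [mm, h, dif_pos]
      omega
    · simp only [mm, h, dif_neg, not_false_iff, le_refl]
  have hmmM : ∀ j p n, mm j p n ≤ M j := by
    intro j p n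
    by_cases h : n - s j < N j
    · simp only [mm, h, dif_pos]
      exact (p ⟨n - s j, h⟩).2
    · simp only [mm, h, dif_neg, not_false_iff]
      exact hM j
  let R : ∀ j, P j → ℕ → Set.Ico (0 : ℝ) 1 := fun j p n =>
    if n < s j then t j
    else if n < s (j + 1) then
      ⟨rad j n (mm j p n), hrad0 j n _ (hmm1 j p n), hrad1 j n _ (hmm1 j p n) (hmmM j p n)⟩
    else ⟨0, le_rfl, one_pos⟩
  have hR1 : ∀ j p n, n < s j → R j p n = t j := fun j p n h => by
    simp only [R, h, if_true]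
  have hR2 : ∀ j p n, s j ≤ n → n < s (j + 1) → (R j p n : ℝ) = rad j n (mm j p n) := by
    intro j p n h1 h2
    simp only [R, not_lt.2 h1, if_false, h2, if_true]
  have hR3 : ∀ j p n, s (j + 1) ≤ n → (R j p n : ℝ) = 0 := by
    intro j p n h1
    have h2 : ¬ n < s j := by
      have : s j < s (j + 1) := hsm (Nat.lt_succ_self j)
      omega
    simp only [R, h2, if_false, not_lt.2 h1]
  have hRt : ∀ j p n, R j p n ≤ t j := by
    intro j p n
    rcases lt_or_ge n (s j) with h | h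
    · rw [hR1 j p n h]
    · rcases lt_or_ge n (s (j + 1)) with h' | h'
      · change (R j p n : ℝ) ≤ t j
        rw [hR2 j p n h h']
        exact (hτ2 j n (Finset.mem_Ico.2 ⟨h, h'⟩) _
          (Finset.mem_Icc.2 ⟨hmm1 j p n, hmmM j p n⟩)).trans (htτ j)
      · change (R j p n : ℝ) ≤ t j
        rw [hR3 j p n h']
        exact (t j).2.1
  have hanti : ∀ j p, Antitone (R j p) := by
    intro j p
    refine antitone_nat_of_succ_le fun n => ?_
    rcases lt_or_ge n (s j) with h | h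
    · rw [hR1 j p n h]
      exact hRt j p _
    · rcases lt_or_ge (n + 1) (s (j + 1)) with h' | h'
      · change (R j p (n + 1) : ℝ) ≤ R j p n
        rw [hR2 j p n h (by omega), hR2 j p (n + 1) (by omega) h']
        have hd : dj j n = dj j (n + 1) * D j := by
          have h5 := hss j
          have : N j - 1 - (n - s j) = (N j - 1 - (n + 1 - s j)) + 1 := by omega
          simp only [dj]
          rw [this, pow_succ]
        have h6 : rad j (n + 1) (mm j p (n + 1)) ^ dj j n ≤ rad j n (mm j p n) ^ dj j n := by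
          rw [hradpow j n _ (hmm1 j p n)]
          conv_lhs => rw [hd, pow_mul, hradpow j (n + 1) _ (hmm1 j p (n + 1))]
          calc eff (M j) (mm j p (n + 1)) ^ D j ≤ eff (M j) (M j) ^ D j :=
                pow_le_pow_left₀ (eff_pos (hmm1 _ _ _)).le (eff_mono (hmmM _ _ _)) _
            _ ≤ eff (M j) 1 := hDe j
            _ ≤ eff (M j) (mm j p n) := eff_mono (hmm1 _ _ _)
        exact (pow_le_pow_iff_left₀ (hrad0 _ _ _ (hmm1 _ _ _)) (hrad0 _ _ _ (hmm1 _ _ _))
          (hdj j n)).1 h6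
      · change (R j p (n + 1) : ℝ) ≤ R j p n
        rw [hR3 j p (n + 1) h']
        exact (R j p n).2.1
  refine ⟨f, hf, hf0, s, t, P, hPf, hPn, R, hsm, htm, ht1, hanti, hR1, hRt, hR3, ?_⟩
  -- Borel-Cantelli
  have hbc : ∀ᵐ θ ∂haar, ∀ᶠ j : ℕ in atTop, θ ∉ {θ | ∑ n ∈ Finset.Ico (s j) (s j + N j),
      (β j / N j) * Hs (M j) (dj j n • θ n) < j} := by
    refine ae_eventually_notMem ?_
    refine ne_top_of_le_ne_top ?_ (ENNReal.tsum_le_tsum fun j => hprob j (dj j) (hdj j) (s j))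
    rw [← ENNReal.ofReal_tsum_of_nonneg (fun j => by positivity)
      (summable_geometric_of_lt_one (by norm_num) (by norm_num))]
    exact ENNReal.ofReal_ne_top
  have hall : ∀ᵐ θ ∂haar, ∀ j, ∀ p : P j, ‖radial f (R j p) θ‖ ≤
      ∏ n ∈ Finset.Ico (s j) (s (j + 1)), ‖g n (R j p n * e (θ n))‖ := by
    refine ae_all_iff.2 fun j => ?_
    have := hPf j
    exact ae_all_iff.2 fun p => hfr (R j p) j
  filter_upwards [hbc, hall] with θ h1 h2
  filter_upwards [h1] with j hj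
  simp only [not_lt] at hj
  have hch : ∀ n, ∃ m ∈ Finset.Icc 1 (M j), Hs (M j) (dj j n • θ n) ≤
      kk (((1 - (1 / 2) ^ m : ℝ) : ℂ) * e (dj j n • θ n)) := fun n => exists_kk _ (hM j) _
  choose m hm hmk using hch
  let p : P j := fun i => ⟨m (s j + i) - 1, by
    have := Finset.mem_Icc.1 (hm (s j + i))
    omega⟩
  have hmp : ∀ n ∈ Finset.Ico (s j) (s (j + 1)), mm j p n = m n := by
    intro n hn
    rw [Finset.mem_Ico, hss] at hn
    have h3 : n - s j < N j := by omega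
    simp only [mm, h3, dif_pos, p]
    have h4 : s j + (n - s j) = n := by omega
    rw [h4]
    have := Finset.mem_Icc.1 (hm n)
    omega
  refine ⟨p, (h2 j p).trans ?_⟩
  have h5 : ∀ n ∈ Finset.Ico (s j) (s (j + 1)), ‖g n (R j p n * e (θ n))‖ =
      Real.exp (-(β j / N j * kk (((1 - (1 / 2) ^ (m n) : ℝ) : ℂ) * e (dj j n • θ n)))) := by
    intro n hn
    have hn' := Finset.mem_Ico.1 hn
    have h6 := hblk j n hn'.1 hn'.2
    simp only [g]
    rw [h6, norm_gfun]
    congr 4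
    rw [hR2 j p n hn'.1 hn'.2, hmp n hn, mul_pow, ← mul_assoc, e_nsmul]
    congr 1
    have hm1 := (Finset.mem_Icc.1 (hm n)).1
    rw [← Complex.ofReal_pow, hradpow j n _ hm1, ← Complex.ofReal_mul]
    congr 1
    have := rho_pos (M j)
    simp only [ρ, eff]
    field_simp
  rw [Finset.prod_congr rfl h5, ← Real.exp_sum, Finset.sum_neg_distrib]
  refine Real.exp_le_exp.2 (neg_le_neg ?_)
  rw [← hss] at hj
  refine hj.trans (Finset.sum_le_sum fun n _ => ?_)
  exact mul_le_mul_of_nonneg_left (hmk n) (hb0 j)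

end Core

end Pool.Agent.X206.TorusRadial
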